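import Pool.Agent.W186.DX.Steps

set_option autoImplicit false

namespace Pool.Agent.W186.DX

open Complex Filter Topology Set
open Pool.Agent.H24R2.JP (XX HH Om)
open Pool.Agent.H24R2.JP.StirAux
open Pool.Agent.H986R2.K4

/-- factorisation near a point of the upper half plane -/
lemma XX_eventually {z : ℂ} (hz : 0 < z.im) : XX =ᶠ[𝓝 z] fun w => HH w * riemannZeta (1 / 2 + w) := by
  filter_upwards [upper_open.mem_nhds hz] with w hw
  exact Pool.Agent.H24R2.JP.zetaS.1 w hw

lemma base0 (ε R : ℝ) (hε : 0 < ε) (hR : 1 ≤ R) : ∃ T0 : ℝ, 400 ≤ T0 ∧ ∀ t : ℝ, T0 ≤ t →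
    Wd 0 (1 / 2) ε R t := by
  obtain ⟨t1, ht1, hz⟩ := Pool.Agent.H986R2.K4.a1 (ε / 4) (by linarith)
  obtain ⟨K, T1, hK, hT1, hc⟩ := HH_compare R hR
  obtain ⟨t2, ht2⟩ := Filter.eventually_atTop.1
    ((Real.tendsto_log_atTop.const_mul_atTop (show 0 < ε / 4 by linarith)).eventually_ge_atTop K)
  refine ⟨max (max t1 T1) t2, hT1.trans ((le_max_right _ _).trans (le_max_left _ _)), ?_⟩
  intro t ht z h1 h2 h3
  have g1 : t1 ≤ t := (le_max_left _ _).trans ((le_max_left _ _).trans ht)
  have g2 : T1 ≤ t := (le_max_right _ _).trans ((le_max_left _ _).trans ht)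
  have g3 : t2 ≤ t := (le_max_right _ _).trans ht
  have ht400 : 400 ≤ t := hT1.trans g2
  have htpos : 0 < t := by linarith
  have hlog : 1 ≤ Real.log t := by
    rw [Real.le_log_iff_exp_le (by linarith)]
    have := Real.exp_one_lt_d9
    linarith
  have him : 0 < z.im := by rw [h3]; exact htpos
  have hsre : (1 / 2 + z).re = 1 / 2 + z.re := re_half
  have hsim : (1 / 2 + z).im = t := by rw [im_half, h3]
  obtain ⟨b1, b2, b3, b4⟩ := hz (1 / 2 + z) (by rw [hsre]; linarith) (by rw [hsim]; exact g1)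
  rw [hsim] at b2 b3 b4
  obtain ⟨c1, c2, -⟩ := hc z z (by rw [h3]; exact g2) rfl (by linarith) h2 (by linarith) h2
  rw [h3] at c2
  have hX : XX z = HH z * riemannZeta (1 / 2 + z) := Pool.Agent.H24R2.JP.zetaS.1 z him
  have hne : XX z ≠ 0 := by rw [hX]; exact mul_ne_zero c1 b1
  have hd1 : DifferentiableAt ℂ HH z := HH_diff him
  have hs1 : 1 / 2 + z ≠ 1 := by
    intro h
    have := congrArg Complex.im h
    rw [hsim] at this
    simp at this
    linarith
  have hd2 : DifferentiableAt ℂ (fun w => riemannZeta (1 / 2 + w)) z := by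
    have := differentiableAt_riemannZeta hs1
    exact this.comp z ((differentiableAt_const _).add differentiableAt_id)
  have hl : logDeriv XX z = logDeriv HH z + logDeriv riemannZeta (1 / 2 + z) := by
    have e1 : logDeriv XX z = logDeriv (fun w => HH w * riemannZeta (1 / 2 + w)) z := by
      rw [logDeriv_apply, logDeriv_apply, (XX_eventually him).deriv_eq, (XX_eventually him).eq_of_nhds]
    rw [e1, logDeriv_mul z c1 b1 hd1 hd2]
    congr 1
    have e2 : deriv (fun w => riemannZeta (1 / 2 + w)) z = deriv riemannZeta (1 / 2 + z) := by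
      have h4 := (differentiableAt_riemannZeta hs1).hasDerivAt
      have h5 : HasDerivAt (fun w : ℂ => 1 / 2 + w) 1 z := (hasDerivAt_id z).const_add _
      have h6 := HasDerivAt.comp z h4 h5
      rw [mul_one] at h6
      exact h6.deriv
    rw [logDeriv_apply, logDeriv_apply, e2]
  rw [F_zero]
  have hOm : Om t = Real.log t / 2 := rfl
  refine ⟨hne, ?_, ?_, ?_⟩
  · rw [hl]
    have e : logDeriv HH z + logDeriv riemannZeta (1 / 2 + z) - (Om t : ℂ) =
        (logDeriv HH z - (Om t : ℂ)) + logDeriv riemannZeta (1 / 2 + z) := by ring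
    rw [e]
    refine (norm_add_le _ _).trans ?_
    have hK2 := ht2 t g3
    have b5 : ‖logDeriv riemannZeta (1 / 2 + z)‖ ≤ ε / 4 * Real.log t := b2
    have b6 : K + ε / 4 * Real.log t ≤ ε * Om t := by rw [hOm]; linarith
    exact (add_le_add c2 b5).trans b6
  · rw [hX, norm_mul, mul_comm ‖HH z‖]
    have h6 : Real.exp (-(ε * Real.log t)) ≤ ‖riemannZeta (1 / 2 + z)‖ := by
      refine le_trans ?_ b3
      rw [Real.rpow_def_of_pos htpos]
      apply Real.exp_le_exp.2
      nlinarith
    gcongr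
  · rw [hX, norm_mul, mul_comm ‖HH z‖]
    have h6 : ‖riemannZeta (1 / 2 + z)‖ ≤ Real.exp (ε * Real.log t) := by
      refine b4.trans ?_
      rw [Real.rpow_def_of_pos htpos]
      apply Real.exp_le_exp.2
      nlinarith
    gcongr

end Pool.Agent.W186.DX
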