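import Pool.Agent.W186.DX.Zf

set_option autoImplicit false

namespace Pool.Agent.W186.DX

open Complex Filter Topology Set
open Pool.Agent.H24R2.JP (XX HH Om)
open Pool.Agent.H24R2.JP.StirAux
open Pool.Agent.H986R2.K4

lemma grow {f f' : ℝ → ℂ} {c M a V : ℝ} (hM : 0 ≤ M) (ha : 0 < a) (hV : 0 ≤ V)
    (hd : ∀ v ∈ Icc (0 : ℝ) V, HasDerivAt f (f' v) v)
    (hb : ∀ v ∈ Icc (0 : ℝ) V, ‖f' v‖ ≤ M * Real.exp (-(a * v))) (hc : ‖f V‖ ≤ c) :
    ‖f 0‖ ≤ c + M / a := by
  have hmem : ∀ s ∈ Icc (0 : ℝ) V, V - s ∈ Icc (0 : ℝ) V := fun s hs =>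
    ⟨by linarith [hs.2], by linarith [hs.1]⟩
  have hg : ∀ s ∈ Icc (0 : ℝ) V, HasDerivAt (fun s => f (V - s)) (-f' (V - s)) s := by
    intro s hs
    have h1 : HasDerivAt (fun s : ℝ => V - s) (-1) s := (hasDerivAt_id s).const_sub V
    have h2 := HasDerivAt.scomp s (hd (V - s) (hmem s hs)) h1
    refine h2.congr_deriv ?_
    simp
  have hB : ∀ s : ℝ, HasDerivAt (fun s : ℝ => c + M / a * Real.exp (-(a * (V - s))))
      (M * Real.exp (-(a * (V - s)))) s := by
    intro s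
    have h1 : HasDerivAt (fun s : ℝ => -(a * (V - s))) a s := by
      have h0 : HasDerivAt (fun s : ℝ => V - s) (-1) s := (hasDerivAt_id s).const_sub V
      have := (h0.const_mul a).neg
      refine this.congr_deriv ?_
      ring
    have h2 := (h1.exp.const_mul (M / a)).const_add c
    refine h2.congr_deriv ?_
    field_simp
  have key := image_norm_le_of_norm_deriv_right_le_deriv_boundary (f := fun s => f (V - s))
    (f' := fun s => -f' (V - s)) (a := 0) (b := V)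
    (B := fun s : ℝ => c + M / a * Real.exp (-(a * (V - s))))
    (B' := fun s : ℝ => M * Real.exp (-(a * (V - s))))
    (fun s hs => (hg s hs).continuousAt.continuousWithinAt)
    (fun s hs => (hg s (Ico_subset_Icc_self hs)).hasDerivWithinAt)
    (by
      simp only [sub_zero]
      have : 0 ≤ M / a * Real.exp (-(a * V)) := by positivity
      linarith)
    hB
    (fun s hs => by
      rw [norm_neg]
      exact hb (V - s) (hmem s (Ico_subset_Icc_self hs)))
  have h := key (show V ∈ Icc (0 : ℝ) V from ⟨hV, le_rfl⟩)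
  simpa using h

lemma down (n : ℕ) (y ε R : ℝ) (hy0 : 0 ≤ y) (hy1 : y ≤ 1 / 2) (hε : 0 < ε) (hε1 : ε ≤ 1) (hR : 1 ≤ R) :
    ∃ K T0 : ℝ, 1 ≤ K ∧ 400 ≤ T0 ∧ ∀ t : ℝ, T0 ≤ t →
      (∀ t' : ℝ, t ≤ t' → t' ≤ t + K * Real.log t → Wd (n + 1) y (ε / 20) R t') → Wd n y ε R t := by
  obtain ⟨A, T1, hA, hT1, hcr⟩ := F_crude n 3 (by norm_num)
  obtain ⟨T2, hT2, hdec⟩ := HH_decay
  obtain ⟨K', T3, hK', hT3, hcmp⟩ := HH_compare R hR
  obtain ⟨t4, ht4⟩ : ∃ t4 : ℝ, ∀ t : ℝ, t4 ≤ t → 4 * A * Real.log t ≤ t := by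
    have h1 := Real.isLittleO_log_id_atTop.bound (show 0 < 1 / (4 * A) by positivity)
    obtain ⟨t4, h⟩ := Filter.eventually_atTop.1 (h1.and (eventually_ge_atTop 1))
    refine ⟨t4, fun t ht => ?_⟩
    obtain ⟨h2, h3⟩ := h t ht
    rw [Real.norm_eq_abs, id, Real.norm_eq_abs, abs_of_nonneg (by linarith : (0 : ℝ) ≤ t)] at h2
    have h4 := (le_abs_self _).trans h2
    rw [div_mul_eq_mul_div, one_mul, le_div_iff₀ (by positivity)] at h4
    linarith
  obtain ⟨t5, ht5⟩ : ∃ t5 : ℝ, ∀ t : ℝ, t5 ≤ t → 4 * Real.exp K' * Om t / (ε / 20) ≤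
      Real.exp (ε / 10 * Real.log t) := by
    have h1 : Tendsto (fun x : ℝ => Real.exp (ε / 10 * x) / x) atTop atTop := by
      have := tendsto_exp_mul_div_rpow_atTop 1 (ε / 10) (by linarith)
      simpa using this
    have h2 := (h1.comp Real.tendsto_log_atTop).eventually_ge_atTop (4 * Real.exp K' / (ε / 20))
    obtain ⟨t3, ht3⟩ := Filter.eventually_atTop.1 (h2.and (eventually_gt_atTop (Real.exp 1)))
    refine ⟨t3, fun t ht => ?_⟩
    obtain ⟨h3, h4⟩ := ht3 t ht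
    have h5 : 0 < Real.log t := Real.log_pos (lt_trans (Real.one_lt_exp_iff.2 one_pos) h4)
    simp only [Function.comp] at h3
    rw [le_div_iff₀ h5] at h3
    refine le_trans ?_ h3
    unfold Om
    rw [mul_div_right_comm]
    have h6 : 0 ≤ 4 * Real.exp K' / (ε / 20) := by positivity
    nlinarith
  refine ⟨4 * A, max (max (max T1 T2) (max T3 t4)) (max t5 1000), by linarith, ?_, ?_⟩
  · have := le_max_right t5 1000
    have h2 := le_max_right (max (max T1 T2) (max T3 t4)) (max t5 1000)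
    linarith
  intro t ht hW z hz1 hz2 hz3
  have g0 : max (max T1 T2) (max T3 t4) ≤ t := (le_max_left _ _).trans ht
  have g1 : T1 ≤ t := ((le_max_left _ _).trans (le_max_left _ _)).trans g0
  have g2 : T2 ≤ t := ((le_max_right _ _).trans (le_max_left _ _)).trans g0
  have g3 : T3 ≤ t := ((le_max_left _ _).trans (le_max_right _ _)).trans g0
  have g4 : t4 ≤ t := ((le_max_right _ _).trans (le_max_right _ _)).trans g0
  have g5 : t5 ≤ t := ((le_max_left _ _).trans (le_max_right _ _)).trans ht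
  have g6 : 1000 ≤ t := ((le_max_right _ _).trans (le_max_right _ _)).trans ht
  have hV1 := ht4 t g4
  have hB5 := ht5 t g5
  have htpos : 0 < t := by linarith
  have hlog : 1 ≤ Real.log t := by
    rw [Real.le_log_iff_exp_le (by linarith)]
    have := Real.exp_one_lt_d9
    linarith
  have hOm : Om t = Real.log t / 2 := rfl
  have hOlog : 2 ≤ Real.log t := by
    rw [Real.le_log_iff_exp_le (by linarith)]
    have h1 : Real.exp 2 = Real.exp 1 ^ 2 := by rw [← Real.exp_nat_mul]; norm_num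
    have := Real.exp_one_lt_d9
    rw [h1]
    nlinarith [Real.exp_pos 1]
  have hOm1 : 1 ≤ Om t := by rw [hOm]; linarith
  have hOmp : 0 < Om t := by linarith
  obtain ⟨V, hVdef⟩ : ∃ V : ℝ, V = 4 * A * Real.log t := ⟨_, rfl⟩
  have hV0 : 0 ≤ V := by rw [hVdef]; positivity
  have hlog2 : ∀ v : ℝ, 0 ≤ v → v ≤ V → 0 ≤ Real.log (t + v) ∧ Real.log (t + v) ≤ 2 * Real.log t := by
    intro v h0 h1
    refine ⟨Real.log_nonneg (by linarith), ?_⟩
    have h2 : Real.log (t + v) ≤ Real.log (t ^ 2) := Real.log_le_log (by linarith) (by nlinarith)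
    rw [Real.log_pow] at h2
    exact_mod_cast h2
  -- the left point
  obtain ⟨x, hx⟩ : ∃ x : ℝ, x = z.re - (y + ε / 2) := ⟨_, rfl⟩
  have hx0 : ε / 2 ≤ x := by rw [hx]; linarith
  obtain ⟨w, hw⟩ : ∃ w : ℂ, w = z - x := ⟨_, rfl⟩
  have hwre : w.re = y + ε / 2 := by rw [hw]; simp [hx]
  have hwim : w.im = t := by rw [hw]; simp [hz3]
  -- (i) bound for F n w
  have hi : ‖F n w‖ ≤ 3 * Real.exp (ε / 10 * Real.log t) * ‖HH w‖ := by
    have hwv : ∀ v : ℝ, (w + I * v).re = y + ε / 2 ∧ (w + I * v).im = t + v := by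
      intro v
      constructor
      · simp [hwre]
      · simp [hwim]
    have h1 := grow (f := fun v : ℝ => F n (w + I * v)) (f' := fun v : ℝ => I * F (n + 1) (w + I * v))
      (c := ‖HH w‖) (M := Real.exp (ε / 10 * Real.log t) * ‖HH w‖) (a := 1 / 2) (V := V)
      (by positivity) (by norm_num) hV0 ?_ ?_ ?_
    · simp only [ofReal_zero, mul_zero, add_zero] at h1
      refine h1.trans ?_
      have h2 : 1 ≤ Real.exp (ε / 10 * Real.log t) := Real.one_le_exp (by positivity)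
      have h3 := norm_nonneg (HH w)
      nlinarith
    · intro v hv
      have h2 : HasDerivAt (fun x : ℝ => w + I * (x : ℂ)) (I * 1) v :=
        ((Complex.ofRealCLM.hasDerivAt (x := v)).const_mul I).const_add w
      have h4 := HasDerivAt.comp v (F_deriv n (w + I * v)) h2
      refine h4.congr_deriv ?_
      ring
    · intro v hv
      obtain ⟨e1, e2⟩ := hwv v
      obtain ⟨-, -, -, b4⟩ := hW (t + v) (by linarith [hv.1]) (by
        have := hv.2
        rw [hVdef] at this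
        linarith) (w + I * v) (by rw [e1]; linarith) (by rw [e1]; linarith) e2
      have b5 := hdec w v (by rw [hwre]; linarith) (by rw [hwre]; linarith) (by rw [hwim]; exact g2) hv.1
      rw [norm_mul, Complex.norm_I, one_mul]
      have l2 := (hlog2 v hv.1 hv.2).2
      have b6 : Real.exp (ε / 20 * Real.log (t + v)) ≤ Real.exp (ε / 10 * Real.log t) := by
        apply Real.exp_le_exp.2
        nlinarith
      have e3 : -(1 / 2 * v) = -(v / 2) := by ring
      rw [e3]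
      calc ‖F (n + 1) (w + I * v)‖ ≤ Real.exp (ε / 20 * Real.log (t + v)) * ‖HH (w + I * v)‖ := b4
        _ ≤ Real.exp (ε / 10 * Real.log t) * (Real.exp (-(v / 2)) * ‖HH w‖) := by gcongr
        _ = _ := by ring
    · obtain ⟨e1, e2⟩ := hwv V
      have b1 := hcr (w + I * V) (by rw [e2]; linarith) (by rw [e1]; linarith) (by rw [e1]; linarith)
      rw [e2] at b1
      have b5 := hdec w V (by rw [hwre]; linarith) (by rw [hwre]; linarith) (by rw [hwim]; exact g2) hV0
      have l2 := (hlog2 V hV0 le_rfl).2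
      calc ‖F n (w + I * V)‖ ≤ Real.exp (A * Real.log (t + V)) * ‖HH (w + I * V)‖ := b1
        _ ≤ Real.exp (A * Real.log (t + V)) * (Real.exp (-(V / 2)) * ‖HH w‖) := by gcongr
        _ = Real.exp (A * Real.log (t + V) + -(V / 2)) * ‖HH w‖ := by rw [Real.exp_add]; ring
        _ ≤ 1 * ‖HH w‖ := by
            have : Real.exp (A * Real.log (t + V) + -(V / 2)) ≤ 1 := by
              rw [Real.exp_le_one_iff, hVdef]
              rw [hVdef] at l2
              nlinarith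
            gcongr
        _ = ‖HH w‖ := one_mul _
  -- (ii)
  obtain ⟨ε1, hε1d⟩ : ∃ ε1 : ℝ, ε1 = ε / 20 := ⟨_, rfl⟩
  have hε1p : 0 < ε1 := by rw [hε1d]; linarith
  have hε1s : ε1 ≤ 1 / 20 := by rw [hε1d]; linarith
  rw [← hε1d] at hW hB5
  have hWt := hW t le_rfl (by nlinarith)
  have hxpt : ∀ v : ℝ, 0 ≤ v → v ≤ x → F (n + 1) (z - v) ≠ 0 ∧
      ‖logDeriv (F (n + 1)) (z - v) - (Om t : ℂ)‖ ≤ ε1 * Om t := by
    intro v h0 h1
    obtain ⟨b1, b2, -, -⟩ := hWt (z - v) (by simp; linarith) (by simp; linarith) (by simp [hz3])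
    exact ⟨b1, b2⟩
  obtain ⟨c1, c2⟩ := hxpt 0 le_rfl (by linarith)
  simp only [ofReal_zero, sub_zero] at c1 c2
  obtain ⟨-, -, c3, c4⟩ := hWt z (by linarith) hz2 hz3
  have hsubd : ∀ v : ℝ, HasDerivAt (fun v : ℝ => z - (v : ℂ)) (-1) v := by
    intro v
    have h0 : HasDerivAt (fun x : ℝ => (x : ℂ)) 1 v := Complex.ofRealCLM.hasDerivAt
    simpa using h0.const_sub z
  have hFd : ∀ (m : ℕ) (v : ℝ), HasDerivAt (fun v : ℝ => F m (z - v)) (-F (m + 1) (z - v)) v := by
    intro m v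
    have h4 := HasDerivAt.comp v (F_deriv m (z - v)) (hsubd v)
    refine h4.congr_deriv ?_
    ring
  have hdecF : ∀ v ∈ Icc (0 : ℝ) x, ‖F (n + 1) (z - v)‖ ≤
      Real.exp (-((1 - ε1) * Om t * v)) * ‖F (n + 1) z‖ := by
    intro v hv
    have h1 := decay (g := fun v : ℝ => F (n + 1) (z - v))
      (c := fun v : ℝ => -logDeriv (F (n + 1)) (z - v)) (a := (1 - ε1) * Om t) (V := x) ?_ ?_ v hv
    · simpa using h1
    · intro u hu
      obtain ⟨b1, b2⟩ := hxpt u hu.1 hu.2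
      refine (hFd (n + 1) u).congr_deriv ?_
      rw [logDeriv_F]
      field_simp
    · intro u hu
      obtain ⟨b1, b2⟩ := hxpt u hu.1 hu.2
      have b3 := (Complex.abs_re_le_norm _).trans b2
      rw [Complex.sub_re, Complex.ofReal_re, abs_le] at b3
      simp only [Complex.neg_re]
      linarith [b3.1]
  obtain ⟨Φ, hΦ⟩ : ∃ Φ : ℝ → ℂ, Φ = fun v : ℝ => F (n + 1) (z - (v : ℂ)) / (Om t : ℂ) - F n (z - (v : ℂ)) := ⟨_, rfl⟩
  have hOc : (Om t : ℂ) ≠ 0 := by exact_mod_cast hOmp.ne'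
  have hnO : ‖(Om t : ℂ)‖ = Om t := by
    rw [Complex.norm_real, Real.norm_eq_abs, abs_of_pos hOmp]
  have hii : ‖Φ 0‖ ≤ ‖Φ x‖ + (ε1 * ‖F (n + 1) z‖) / ((1 - ε1) * Om t) := by
    refine grow (f := Φ) (f' := fun v : ℝ => -F (n + 2) (z - v) / (Om t : ℂ) - -F (n + 1) (z - v))
      (c := ‖Φ x‖) (M := ε1 * ‖F (n + 1) z‖) (a := (1 - ε1) * Om t) (V := x)
      (by positivity) (by nlinarith) (by linarith) ?_ ?_ le_rfl
    · intro v hv
      rw [hΦ]
      exact ((hFd (n + 1) v).div_const _).sub (hFd n v)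
    · intro v hv
      obtain ⟨b1, b2⟩ := hxpt v hv.1 hv.2
      have e1 : -F (n + 2) (z - v) / (Om t : ℂ) - -F (n + 1) (z - v) =
          -((logDeriv (F (n + 1)) (z - v) - (Om t : ℂ)) / (Om t : ℂ)) * F (n + 1) (z - v) := by
        rw [logDeriv_F]
        field_simp
        ring
      rw [e1, norm_mul, norm_neg, norm_div, hnO]
      have h3 : ‖logDeriv (F (n + 1)) (z - v) - (Om t : ℂ)‖ / Om t ≤ ε1 := by
        rw [div_le_iff₀ hOmp]; exact b2
      calc _ ≤ ε1 * (Real.exp (-((1 - ε1) * Om t * v)) * ‖F (n + 1) z‖) := by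
            have := hdecF v hv
            gcongr
        _ = _ := by ring
  -- (iii)
  have hΦx : ‖Φ x‖ ≤ ε1 / Om t * ‖F (n + 1) z‖ := by
    have e1 : Φ x = F (n + 1) w / (Om t : ℂ) - F n w := by rw [hΦ, hw]
    obtain ⟨-, -, -, d4⟩ := hWt w (by rw [hwre]; linarith) (by rw [hwre]; linarith) hwim
    obtain ⟨-, -, k3⟩ := hcmp z w (by rw [hz3]; exact g3) (by rw [hwim, hz3]) (by rw [hwre]; linarith)
      (by rw [hwre]; linarith) (by linarith) hz2
    rw [hz3] at k3
    have k4 : w.re - z.re = -x := by rw [hwre, hx]; ring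
    rw [k4] at k3
    have m1 : ‖F (n + 1) w / (Om t : ℂ)‖ ≤ Real.exp (ε / 10 * Real.log t) * ‖HH w‖ := by
      rw [norm_div, hnO, div_le_iff₀ hOmp]
      have h5 : Real.exp (ε1 * Real.log t) ≤ Real.exp (ε / 10 * Real.log t) := by
        apply Real.exp_le_exp.2
        rw [hε1d]
        nlinarith
      calc ‖F (n + 1) w‖ ≤ Real.exp (ε1 * Real.log t) * ‖HH w‖ := d4
        _ ≤ Real.exp (ε / 10 * Real.log t) * ‖HH w‖ := by gcongr
        _ ≤ Real.exp (ε / 10 * Real.log t) * ‖HH w‖ * Om t :=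
            le_mul_of_one_le_right (by positivity) hOm1
    have m2 : ‖HH z‖ ≤ Real.exp (ε1 * Real.log t) * ‖F (n + 1) z‖ := by
      have e5 : Real.exp (ε1 * Real.log t) * Real.exp (-(ε1 * Real.log t)) = 1 := by
        rw [← Real.exp_add]; simp
      calc ‖HH z‖ = Real.exp (ε1 * Real.log t) * (Real.exp (-(ε1 * Real.log t)) * ‖HH z‖) := by
            rw [← mul_assoc, e5, one_mul]
        _ ≤ Real.exp (ε1 * Real.log t) * ‖F (n + 1) z‖ := by gcongr
    rw [e1]
    calc ‖F (n + 1) w / (Om t : ℂ) - F n w‖ ≤ ‖F (n + 1) w / (Om t : ℂ)‖ + ‖F n w‖ := norm_sub_le _ _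
      _ ≤ Real.exp (ε / 10 * Real.log t) * ‖HH w‖ + 3 * Real.exp (ε / 10 * Real.log t) * ‖HH w‖ :=
          add_le_add m1 hi
      _ = 4 * Real.exp (ε / 10 * Real.log t) * ‖HH w‖ := by ring
      _ ≤ 4 * Real.exp (ε / 10 * Real.log t) * (Real.exp (Om t * -x + K') *
          (Real.exp (ε1 * Real.log t) * ‖F (n + 1) z‖)) := by gcongr; exact k3.trans (by gcongr)
      _ = 4 * Real.exp K' * Real.exp (ε / 10 * Real.log t + Om t * -x + ε1 * Real.log t) *
          ‖F (n + 1) z‖ := by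
          rw [Real.exp_add, Real.exp_add, Real.exp_add]; ring
      _ ≤ 4 * Real.exp K' * Real.exp (-(ε / 10 * Real.log t)) * ‖F (n + 1) z‖ := by
          have : ε / 10 * Real.log t + Om t * -x + ε1 * Real.log t ≤ -(ε / 10 * Real.log t) := by
            rw [hOm, hε1d]
            nlinarith
          have := Real.exp_le_exp.2 this
          gcongr
      _ ≤ ε1 / Om t * ‖F (n + 1) z‖ := by
          have h6 : 4 * Real.exp K' * Real.exp (-(ε / 10 * Real.log t)) ≤ ε1 / Om t := by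
            rw [Real.exp_neg, ← div_eq_mul_inv, div_le_div_iff₀ (Real.exp_pos _) hOmp]
            rw [div_le_iff₀ hε1p] at hB5
            linarith
          gcongr
  -- (iv)
  have hfin : ‖F (n + 1) z / (Om t : ℂ) - F n z‖ ≤ 3 * ε1 * (‖F (n + 1) z‖ / Om t) := by
    have e0 : Φ 0 = F (n + 1) z / (Om t : ℂ) - F n z := by rw [hΦ]; simp
    rw [← e0]
    refine (hii.trans (add_le_add hΦx le_rfl)).trans ?_
    have h7 : (ε1 * ‖F (n + 1) z‖) / ((1 - ε1) * Om t) ≤ 2 * ε1 * (‖F (n + 1) z‖ / Om t) := by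
      rw [mul_div_assoc', div_le_div_iff₀ (by nlinarith) hOmp]
      have : 0 ≤ ε1 * ‖F (n + 1) z‖ * Om t := by positivity
      nlinarith
    have h8 : ε1 / Om t * ‖F (n + 1) z‖ = ε1 * (‖F (n + 1) z‖ / Om t) := by ring
    rw [h8]
    linarith
  have hpos1 : 0 < ‖F (n + 1) z‖ := norm_pos_iff.2 c1
  have hq0 : 0 < ‖F (n + 1) z‖ / Om t := div_pos hpos1 hOmp
  have hnq : ‖F (n + 1) z / (Om t : ℂ)‖ = ‖F (n + 1) z‖ / Om t := by rw [norm_div, hnO]
  have hlow : (1 - 3 * ε1) * (‖F (n + 1) z‖ / Om t) ≤ ‖F n z‖ := by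
    have h9 : ‖F (n + 1) z / (Om t : ℂ)‖ - ‖F (n + 1) z / (Om t : ℂ) - F n z‖ ≤ ‖F n z‖ := by
      have := norm_sub_norm_le (F (n + 1) z / (Om t : ℂ)) (F (n + 1) z / (Om t : ℂ) - F n z)
      rwa [sub_sub_cancel] at this
    rw [hnq] at h9
    linarith
  have hupp : ‖F n z‖ ≤ (1 + 3 * ε1) * (‖F (n + 1) z‖ / Om t) := by
    have h9 : ‖F n z‖ ≤ ‖F (n + 1) z / (Om t : ℂ)‖ + ‖F (n + 1) z / (Om t : ℂ) - F n z‖ := by
      have := norm_sub_le (F (n + 1) z / (Om t : ℂ)) (F (n + 1) z / (Om t : ℂ) - F n z)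
      rwa [sub_sub_cancel] at this
    rw [hnq] at h9
    linarith
  have hFnpos : 0 < ‖F n z‖ := lt_of_lt_of_le (mul_pos (by linarith) hq0) hlow
  have hFn0 : F n z ≠ 0 := norm_pos_iff.1 hFnpos
  have hgrowth : 2 * Om t ≤ Real.exp (ε / 10 * Real.log t) := by
    refine le_trans ?_ hB5
    rw [le_div_iff₀ hε1p]
    have h10 : 1 ≤ Real.exp K' := Real.one_le_exp (by linarith)
    nlinarith
  refine ⟨hFn0, ?_, ?_, ?_⟩
  · rw [logDeriv_F]
    have e2 : F (n + 1) z / F n z - (Om t : ℂ) =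
        (Om t : ℂ) * (F (n + 1) z / (Om t : ℂ) - F n z) / F n z := by
      field_simp
    rw [e2, norm_div, norm_mul, hnO, div_le_iff₀ hFnpos]
    calc Om t * ‖F (n + 1) z / (Om t : ℂ) - F n z‖
        ≤ Om t * (3 * ε1 * (‖F (n + 1) z‖ / Om t)) := by gcongr
      _ ≤ Om t * (ε * ((1 - 3 * ε1) * (‖F (n + 1) z‖ / Om t))) := by
          have : 3 * ε1 ≤ ε * (1 - 3 * ε1) := by rw [hε1d]; nlinarith
          have h11 : 3 * ε1 * (‖F (n + 1) z‖ / Om t) ≤ ε * (1 - 3 * ε1) * (‖F (n + 1) z‖ / Om t) := by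
            gcongr
          have h12 : ε * (1 - 3 * ε1) * (‖F (n + 1) z‖ / Om t) =
              ε * ((1 - 3 * ε1) * (‖F (n + 1) z‖ / Om t)) := by ring
          rw [h12] at h11
          gcongr
      _ ≤ Om t * (ε * ‖F n z‖) := by gcongr
      _ = ε * Om t * ‖F n z‖ := by ring
  · refine le_trans ?_ hlow
    rw [← mul_div_assoc, le_div_iff₀ hOmp]
    have h13 : 2 * Om t * Real.exp (-(ε * Real.log t)) ≤ Real.exp (-(ε1 * Real.log t)) := by
      calc 2 * Om t * Real.exp (-(ε * Real.log t))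
          ≤ Real.exp (ε / 10 * Real.log t) * Real.exp (-(ε * Real.log t)) := by gcongr
        _ = Real.exp (ε / 10 * Real.log t + -(ε * Real.log t)) := by rw [Real.exp_add]
        _ ≤ Real.exp (-(ε1 * Real.log t)) := by
            apply Real.exp_le_exp.2
            rw [hε1d]
            nlinarith
    have h14 : Real.exp (-(ε1 * Real.log t)) * ‖HH z‖ ≤ ‖F (n + 1) z‖ := c3
    have h15 : (2 * Om t * Real.exp (-(ε * Real.log t))) * ‖HH z‖ ≤ ‖F (n + 1) z‖ :=
      (mul_le_mul_of_nonneg_right h13 (norm_nonneg _)).trans h14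
    have h16 : 0 ≤ Real.exp (-(ε * Real.log t)) * ‖HH z‖ * Om t := by positivity
    nlinarith
  · refine hupp.trans ?_
    rw [← mul_div_assoc, div_le_iff₀ hOmp]
    have h17 : Real.exp (ε1 * Real.log t) ≤ Real.exp (ε * Real.log t) / 2 := by
      rw [le_div_iff₀ two_pos]
      calc Real.exp (ε1 * Real.log t) * 2 ≤ Real.exp (ε1 * Real.log t) * Real.exp (ε / 10 * Real.log t) := by
            have : 2 ≤ Real.exp (ε / 10 * Real.log t) := by linarith
            gcongr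
        _ = Real.exp (ε1 * Real.log t + ε / 10 * Real.log t) := by rw [Real.exp_add]
        _ ≤ Real.exp (ε * Real.log t) := by
            apply Real.exp_le_exp.2
            rw [hε1d]
            nlinarith
    have h18 : ‖F (n + 1) z‖ ≤ Real.exp (ε * Real.log t) / 2 * ‖HH z‖ :=
      c4.trans (mul_le_mul_of_nonneg_right h17 (norm_nonneg _))
    have h19 : 0 ≤ Real.exp (ε * Real.log t) * ‖HH z‖ := by positivity
    have h20 : (1 + 3 * ε1) * ‖F (n + 1) z‖ ≤ 2 * ‖F (n + 1) z‖ := by gcongr; linarith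
    nlinarith

end Pool.Agent.W186.DX
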