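import Pool.Agent.H986R2.K4.HHb
import Pool.Agent.H345R2.Chi

set_option autoImplicit false

/-!
# Decay of the gamma factor along vertical lines, and two comparison lemmas
-/

namespace Pool.Agent.W186.DX

open Complex Filter Topology Set
open Pool.Agent.H24R2.JP (XX HH Om)
open Pool.Agent.H24R2.JP.StirAux

/-- If `g' = c g` with `Re c ≤ -a` then `‖g‖` decays like `exp (-a v)`. -/
lemma decay {g c : ℝ → ℂ} {a V : ℝ}
    (hd : ∀ v ∈ Icc (0 : ℝ) V, HasDerivAt g (g v * c v) v)
    (hc : ∀ v ∈ Icc (0 : ℝ) V, (c v).re ≤ -a) :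
    ∀ v ∈ Icc (0 : ℝ) V, ‖g v‖ ≤ Real.exp (-(a * v)) * ‖g 0‖ := by
  intro v hv
  have hV : 0 ≤ V := hv.1.trans hv.2
  let φ : ℝ → ℝ := fun x => Complex.normSq (g x) * Real.exp (2 * a * x)
  have hφ : ∀ x ∈ Icc (0 : ℝ) V,
      HasDerivAt φ ((2 * (c x).re + 2 * a) * Complex.normSq (g x) * Real.exp (2 * a * x)) x := by
    intro x hx
    have h1 := hd x hx
    have hre : HasDerivAt (fun x => (g x).re) (g x * c x).re x := by
      have := (Complex.reCLM.hasFDerivAt.comp_hasDerivAt x h1)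
      exact this
    have him : HasDerivAt (fun x => (g x).im) (g x * c x).im x := by
      have := (Complex.imCLM.hasFDerivAt.comp_hasDerivAt x h1)
      exact this
    have h2 : HasDerivAt (fun x => Complex.normSq (g x))
        ((g x * c x).re * (g x).re + (g x).re * (g x * c x).re +
          ((g x * c x).im * (g x).im + (g x).im * (g x * c x).im)) x := by
      have := (hre.mul hre).add (him.mul him)
      refine this.congr_of_eventuallyEq ?_
      filter_upwards with y
      simp [Complex.normSq_apply]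
    have h3 : HasDerivAt (fun x : ℝ => Real.exp (2 * a * x)) (Real.exp (2 * a * x) * (2 * a)) x := by
      have h4 : HasDerivAt (fun x : ℝ => 2 * a * x) (2 * a) x := by
        simpa using (hasDerivAt_id x).const_mul (2 * a)
      exact h4.exp
    refine (h2.mul h3).congr_deriv ?_
    rw [Complex.normSq_apply]
    simp only [Complex.mul_re, Complex.mul_im]
    ring
  have hanti : AntitoneOn φ (Icc 0 V) := by
    apply antitoneOn_of_deriv_nonpos (convex_Icc 0 V)
    · intro x hx
      exact (hφ x hx).continuousAt.continuousWithinAt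
    · intro x hx
      rw [interior_Icc] at hx
      exact (hφ x (Ioo_subset_Icc_self hx)).differentiableAt.differentiableWithinAt
    · intro x hx
      rw [interior_Icc] at hx
      rw [(hφ x (Ioo_subset_Icc_self hx)).deriv]
      have := hc x (Ioo_subset_Icc_self hx)
      have h5 : 0 ≤ Complex.normSq (g x) * Real.exp (2 * a * x) :=
        mul_nonneg (Complex.normSq_nonneg _) (Real.exp_pos _).le
      nlinarith
  have h6 := hanti (left_mem_Icc.2 hV) hv hv.1
  simp only [φ, mul_zero, Real.exp_zero, mul_one] at h6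
  have h7 : Complex.normSq (g v) ≤ (Real.exp (-(a * v)) * ‖g 0‖) ^ 2 := by
    rw [mul_pow, ← Complex.normSq_eq_norm_sq (g 0), ← Real.exp_nat_mul]
    have e : ((2 : ℕ) : ℝ) * -(a * v) = -(2 * a * v) := by push_cast; ring
    rw [e, Real.exp_neg, inv_mul_eq_div, le_div_iff₀ (Real.exp_pos _)]
    exact h6
  rw [Complex.normSq_eq_norm_sq] at h7
  exact le_of_sq_le_sq h7 (by positivity) |> fun h => h

/-- The imaginary part of the logarithmic derivative of the gamma factor. -/
lemma im_ld : ∃ T0 : ℝ, 400 ≤ T0 ∧ ∀ z : ℂ, 0 ≤ z.re → z.re ≤ 3 → T0 ≤ z.im →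
    1 / 2 ≤ (logDeriv HH z).im := by
  refine ⟨400, le_rfl, fun z h0 h3 hT => ?_⟩
  have hpos : 0 < z.im := by linarith
  rw [ld_eq hpos]
  obtain ⟨s, hs⟩ : ∃ s : ℂ, s = (1 / 2 + z) / 2 := ⟨_, rfl⟩
  have hsre : s.re = (1 / 2 + z.re) / 2 := by rw [hs]; simp
  have hsim : s.im = z.im / 2 := by rw [hs]; simp
  have hs0 : 0 < s.re := by rw [hsre]; linarith
  have hs4 : s.re ≤ 4 := by rw [hsre]; linarith
  have hs12 : 12 ≤ s.im := by rw [hsim]; linarith
  have hsim0 : 0 < s.im := by linarith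
  have b1 := H345.Chi.log_close hs0 hs4 hs12
  have b2 := H345.Chi.tsum_er_le hs0 (by linarith : 1 ≤ s.im)
  have hdg := H370.DG.logDeriv_Gamma' hs0
  have b4 : ‖1 / s‖ ≤ 1 / s.im := by
    rw [norm_div, norm_one]
    apply one_div_le_one_div_of_le hsim0
    exact (le_abs_self _).trans (abs_im_le_norm s)
  have b5 : ‖1 / (s + 1)‖ ≤ 1 / s.im := by
    rw [norm_div, norm_one]
    apply one_div_le_one_div_of_le hsim0
    refine le_trans ?_ (abs_im_le_norm (s + 1))
    simp [le_abs_self]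
  have b6 : ‖logDeriv Complex.Gamma s - ((Real.log s.im : ℂ) + (Real.pi / 2 : ℂ) * I)‖ ≤ 13 / s.im := by
    have e : logDeriv Complex.Gamma s - ((Real.log s.im : ℂ) + (Real.pi / 2 : ℂ) * I) =
        (Complex.log (s + 2) - ((Real.log s.im : ℂ) + (Real.pi / 2 : ℂ) * I)) - 1 / s - 1 / (s + 1)
        + ∑' n, H370.DG.er n s := by
      rw [hdg]
      ring
    rw [e]
    refine (norm_add_le _ _).trans ?_
    refine (add_le_add (norm_sub_le _ _) le_rfl).trans ?_
    refine (add_le_add (add_le_add (norm_sub_le _ _) le_rfl) le_rfl).trans ?_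
    calc _ ≤ 9 / s.im + 1 / s.im + 1 / s.im + 2 / s.im := by gcongr
      _ = 13 / s.im := by ring
  have b7 : 13 / s.im ≤ 1 / 15 := by
    rw [div_le_iff₀ hsim0, hsim]
    linarith
  have b8 : Real.pi / 2 - 1 / 15 ≤ (logDeriv Complex.Gamma s).im := by
    have h1 := (Complex.abs_im_le_norm _).trans (b6.trans b7)
    have h2 : (logDeriv Complex.Gamma s - ((Real.log s.im : ℂ) + (Real.pi / 2 : ℂ) * I)).im =
        (logDeriv Complex.Gamma s).im - Real.pi / 2 := by
      simp
    rw [h2, abs_le] at h1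
    linarith [h1.1]
  have b9 : ‖8 * z / (4 * z ^ 2 - 1)‖ ≤ 1 / 100 := by
    have hn : 400 ≤ ‖z‖ := by
      have := Complex.abs_im_le_norm z
      rw [abs_of_pos hpos] at this
      linarith
    rw [norm_div, div_le_iff₀ (norm_pos_iff.2 (quad_ne hpos))]
    have e1 : ‖8 * z‖ = 8 * ‖z‖ := by simp
    have e2 : ‖(4 * z ^ 2 : ℂ)‖ = 4 * ‖z‖ ^ 2 := by simp
    have e3 : ‖(4 * z ^ 2 : ℂ)‖ - ‖(1 : ℂ)‖ ≤ ‖(4 * z ^ 2 - 1 : ℂ)‖ := norm_sub_norm_le _ _
    rw [e2, norm_one] at e3
    rw [e1]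
    nlinarith
  have b10 : |(8 * z / (4 * z ^ 2 - 1)).im| ≤ 1 / 100 := (Complex.abs_im_le_norm _).trans b9
  have b11 : (ld z).im = (8 * z / (4 * z ^ 2 - 1)).im + (logDeriv Complex.Gamma s).im / 2 := by
    unfold ld
    rw [← hs]
    simp only [Complex.add_im, Complex.neg_im, Complex.ofReal_im, Complex.div_ofNat_im]
    ring
  rw [b11]
  rw [abs_le] at b10
  have hpi := Real.pi_gt_three
  linarith [b10.1]

/-- Exponential decay of the gamma factor along vertical lines. -/
lemma HH_decay : ∃ T0 : ℝ, 400 ≤ T0 ∧ ∀ (z : ℂ) (v : ℝ), 0 ≤ z.re → z.re ≤ 3 → T0 ≤ z.im → 0 ≤ v →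
    ‖HH (z + I * v)‖ ≤ Real.exp (-(v / 2)) * ‖HH z‖ := by
  obtain ⟨T0, hT0, h⟩ := im_ld
  refine ⟨T0, hT0, fun z v h0 h3 hT hv => ?_⟩
  have him : ∀ x : ℝ, (z + I * x).im = z.im + x := fun x => by simp
  have hre : ∀ x : ℝ, (z + I * x).re = z.re := fun x => by simp
  have key := decay (g := fun x : ℝ => HH (z + I * x)) (c := fun x : ℝ => I * logDeriv HH (z + I * x))
    (a := 1 / 2) (V := v) ?_ ?_ v ⟨hv, le_rfl⟩
  · simp only [ofReal_zero, mul_zero, add_zero] at key
    refine key.trans (le_of_eq ?_)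
    congr 2
    ring
  · intro x hx
    have hp : 0 < (z + I * x).im := by rw [him]; linarith [hx.1]
    have h1 := HH_deriv hp
    have h2 : HasDerivAt (fun x : ℝ => z + I * (x : ℂ)) (I * 1) x :=
      ((Complex.ofRealCLM.hasDerivAt (x := x)).const_mul I).const_add z
    have h4 := HasDerivAt.comp x h1 h2
    refine h4.congr_deriv ?_
    rw [ld_eq hp]
    ring
  · intro x hx
    have h1 := h (z + I * x) (by rw [hre]; exact h0) (by rw [hre]; exact h3)
      (by rw [him]; linarith [hx.1])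
    simp only [Complex.mul_re, Complex.I_re, Complex.I_im, zero_mul, one_mul, zero_sub]
    linarith

end Pool.Agent.W186.DX
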