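import Pool.Agent.W186.DX.Sets

set_option autoImplicit false

namespace Pool.Agent.W186.DX

open Complex Filter Topology Set
open Pool.Agent.H24R2.JP (XX HH Om)
open Pool.Agent.H986R2.K4 (xi)

/-- a zero of `F m` is accompanied by a zero of `F n`; fixed `y` -/
lemma shadow0 (m n : ℕ) (y ε : ℝ) (hy : 0 ≤ y) (hε : 0 < ε) : ∃ K T0 : ℝ, 1 ≤ K ∧ 400 ≤ T0 ∧
    ∀ z : ℂ, F m z = 0 → y + ε ≤ z.re → T0 ≤ |z.im| →
      ∃ w : ℂ, F n w = 0 ∧ y < w.re ∧ |w.im - z.im| ≤ K * Real.log |z.im| := by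
  obtain ⟨K, T0, hK, hT0, h⟩ := loc m n y ε hy hε
  refine ⟨K, T0, hK, hT0, ?_⟩
  have key : ∀ z : ℂ, F m z = 0 → y + ε ≤ z.re → T0 ≤ z.im →
      ∃ w : ℂ, F n w = 0 ∧ y < w.re ∧ |w.im - z.im| ≤ K * Real.log |z.im| := by
    intro z h0 h1 h2
    by_contra hc
    push Not at hc
    refine h z.im h2 ?_ z h1 (by simp) h0
    intro w hw hw2 hw0
    have := hc w hw0 hw
    rw [abs_of_nonneg (by linarith : (0 : ℝ) ≤ z.im)] at this
    linarith
  intro z h0 h1 h2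
  rcases le_total 0 z.im with h3 | h3
  · rw [abs_of_nonneg h3] at h2
    exact key z h0 h1 h2
  · have h4 : T0 ≤ ((starRingEnd ℂ) z).im := by
      rw [abs_of_nonpos h3] at h2
      simpa using h2
    obtain ⟨w, hw0, hw1, hw2⟩ := key ((starRingEnd ℂ) z) (by rw [F_conj, h0, map_zero]) (by simpa using h1) h4
    refine ⟨(starRingEnd ℂ) w, by rw [F_conj, hw0, map_zero], by simpa using hw1, ?_⟩
    rw [Complex.conj_im, abs_neg] at hw2
    rw [Complex.conj_im, ← abs_neg]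
    rw [show -(-w.im - z.im) = w.im - -z.im by ring]
    exact hw2

/-- uniform version -/
lemma shadow (m n : ℕ) (ε : ℝ) (hε : 0 < ε) : ∃ K T0 : ℝ, 1 ≤ K ∧ 400 ≤ T0 ∧
    ∀ z : ℂ, F m z = 0 → ε ≤ z.re → T0 ≤ |z.im| →
      ∃ w : ℂ, F n w = 0 ∧ z.re - ε < w.re ∧ |w.im - z.im| ≤ K * Real.log |z.im| := by
  have h : ∀ j : ℕ, ∃ K T0 : ℝ, 1 ≤ K ∧ 400 ≤ T0 ∧ ∀ z : ℂ, F m z = 0 → j * (ε / 2) + ε / 2 ≤ z.re →
      T0 ≤ |z.im| → ∃ w : ℂ, F n w = 0 ∧ j * (ε / 2) < w.re ∧ |w.im - z.im| ≤ K * Real.log |z.im| :=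
    fun j => shadow0 m n (j * (ε / 2)) (ε / 2) (by positivity) (by linarith)
  choose K T0 hK hT0 hh using h
  obtain ⟨N, hN⟩ : ∃ N : ℕ, 1 / ε ≤ N := exists_nat_ge _
  obtain ⟨K', hK'⟩ : ∃ K' : ℝ, K' = ∑ j ∈ Finset.range (N + 1), K j := ⟨_, rfl⟩
  obtain ⟨T', hT'⟩ : ∃ T' : ℝ, T' = ∑ j ∈ Finset.range (N + 1), T0 j := ⟨_, rfl⟩
  have hKj : ∀ j ∈ Finset.range (N + 1), K j ≤ K' := by
    intro j hj
    rw [hK']
    exact Finset.single_le_sum (f := K) (fun i _ => by linarith [hK i]) hj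
  have hTj : ∀ j ∈ Finset.range (N + 1), T0 j ≤ T' := by
    intro j hj
    rw [hT']
    exact Finset.single_le_sum (f := T0) (fun i _ => by linarith [hT0 i]) hj
  refine ⟨K', T', (hK 0).trans (hKj 0 (by simp)), (hT0 0).trans (hTj 0 (by simp)), ?_⟩
  intro z h0 h1 h2
  obtain ⟨j, hj⟩ : ∃ j : ℕ, j = ⌊(z.re - ε / 2) / (ε / 2)⌋₊ := ⟨_, rfl⟩
  have hq0 : 0 ≤ (z.re - ε / 2) / (ε / 2) := by
    apply div_nonneg <;> linarith
  have a1 : (j : ℝ) ≤ (z.re - ε / 2) / (ε / 2) := by rw [hj]; exact Nat.floor_le hq0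
  have a2 : (z.re - ε / 2) / (ε / 2) < j + 1 := by rw [hj]; exact Nat.lt_floor_add_one _
  rw [le_div_iff₀ (by linarith)] at a1
  rw [div_lt_iff₀ (by linarith)] at a2
  have hz := (abs_le.1 (F_half h0)).2
  have hjN : j ∈ Finset.range (N + 1) := by
    rw [Finset.mem_range]
    have h5 : (j : ℝ) < N + 1 := by
      rw [div_le_iff₀ hε] at hN
      by_contra hc
      push Not at hc
      nlinarith
    exact_mod_cast h5
  obtain ⟨w, b1, b2, b3⟩ := hh j z h0 (by linarith) ((hTj j hjN).trans h2)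
  refine ⟨w, b1, by linarith, b3.trans ?_⟩
  have : 0 ≤ Real.log |z.im| := Real.log_nonneg (by
    have := hT0 j
    have := hTj j hjN
    linarith)
  exact mul_le_mul_of_nonneg_right (hKj j hjN) this

/-- the zeros of `xi` and of zeta to the right of `0` -/
lemma xi_zero {s : ℂ} (hs : 0 < s.re) : xi s = 0 ↔ riemannZeta s = 0 := by
  have hs0 : s ≠ 0 := by
    rintro rfl
    simp at hs
  by_cases h1 : s = 1
  · subst h1
    constructor
    · intro h
      unfold xi at h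
      norm_num at h
    · intro h
      exact absurd h (riemannZeta_ne_zero_of_one_le_re (by simp))
  · have hG : Gammaℝ s ≠ 0 := Gammaℝ_ne_zero_of_re_pos hs
    have e1 : xi s = s * (s - 1) / 2 * completedRiemannZeta s := by
      unfold xi
      rw [completedRiemannZeta_eq]
      have h2 : (1 - s) ≠ 0 := sub_ne_zero.2 (Ne.symm h1)
      field_simp
      ring
    rw [riemannZeta_def_of_ne_zero hs0, e1]
    have h3 : s * (s - 1) / 2 ≠ 0 := by
      apply div_ne_zero (mul_ne_zero hs0 (sub_ne_zero.2 h1)) two_ne_zero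
    constructor
    · intro h
      rw [(mul_eq_zero.1 h).resolve_left h3, zero_div]
    · intro h
      rw [(div_eq_zero_iff.1 h).resolve_right hG, mul_zero]

/-- zero-free half-plane in terms of `F n` -/
lemma q1 (n : ℕ) : (∃ θ : ℝ, θ < 1 ∧ ∀ s : ℂ, θ < s.re → riemannZeta s ≠ 0) ↔
    ∃ θ : ℝ, θ < 1 ∧ {s : ℂ | θ < s.re ∧ iteratedDeriv n xi s = 0}.Finite := by
  constructor
  · rintro ⟨θ, h1, h2⟩
    obtain ⟨y, hy⟩ : ∃ y : ℝ, y = max (θ - 1 / 2) 0 := ⟨_, rfl⟩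
    have y0 : 0 ≤ y := by rw [hy]; exact le_max_right _ _
    have y1 : θ - 1 / 2 ≤ y := by rw [hy]; exact le_max_left _ _
    have y2 : y < 1 / 2 := by rw [hy]; exact max_lt (by linarith) (by norm_num)
    have hA : AF 0 y := by
      intro ε hε
      convert Set.finite_empty (α := ℂ)
      rw [Set.eq_empty_iff_forall_notMem]
      rintro z ⟨z1, z2⟩
      have e : (z + 1 / 2 - 1 / 2 : ℂ) = z := by ring
      have z3 : xi (z + 1 / 2) = 0 := by
        have := (F_xi 0 (z + 1 / 2)).2 (by rw [e]; exact z2)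
        rwa [iteratedDeriv_zero] at this
      have hre : (z + 1 / 2).re = z.re + 1 / 2 := by
        have := Pool.Agent.H986R2.K4.XiAux.half_re (z + 1 / 2)
        rw [e] at this
        linarith
      rw [xi_zero (by rw [hre]; linarith)] at z3
      exact h2 _ (by rw [hre]; linarith) z3
    have hB := hA.trans y0 n ((1 / 2 - y) / 2) (by linarith)
    refine ⟨1 / 2 + (y + (1 / 2 - y) / 2), by linarith, ?_⟩
    refine (hB.image (fun z => z + 1 / 2)).subset ?_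
    rintro s ⟨s1, s2⟩
    refine ⟨s - 1 / 2, ⟨?_, (F_xi n s).1 s2⟩, by simp⟩
    rw [Pool.Agent.H986R2.K4.XiAux.half_re]
    linarith
  · rintro ⟨θ, h1, h2⟩
    by_contra hcon
    have hq : ∀ y : ℝ, y < 1 / 2 → ∃ s : ℂ, 1 / 2 + y < s.re ∧ riemannZeta s = 0 := by
      intro y hy
      by_contra hc
      push Not at hc
      exact hcon ⟨1 / 2 + y, by linarith, fun s hs => hc s hs⟩
    obtain ⟨y, hy⟩ : ∃ y : ℝ, y = max (θ - 1 / 2) 0 := ⟨_, rfl⟩
    have y0 : 0 ≤ y := by rw [hy]; exact le_max_right _ _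
    have y1 : θ - 1 / 2 ≤ y := by rw [hy]; exact le_max_left _ _
    have y2 : y < 1 / 2 := by rw [hy]; exact max_lt (by linarith) (by norm_num)
    have hA : AF n y := by
      intro ε hε
      refine (h2.image (fun z => z - 1 / 2)).subset ?_
      rintro z ⟨z1, z2⟩
      have e : (z + 1 / 2 - 1 / 2 : ℂ) = z := by ring
      have hre : (z + 1 / 2).re = z.re + 1 / 2 := by
        have := Pool.Agent.H986R2.K4.XiAux.half_re (z + 1 / 2)
        rw [e] at this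
        linarith
      refine ⟨z + 1 / 2, ⟨by rw [hre]; linarith, (F_xi n _).2 (by rw [e]; exact z2)⟩, e⟩
    obtain ⟨T0, hT0, hh⟩ := hA.high y0 0 ((1 / 2 - y) / 2) (by linarith)
    obtain ⟨s, s1, s2, s3, s4⟩ := Pool.Agent.H986R2.K4.v0 hq ((1 / 2 - y) / 2) T0 (by linarith)
    refine hh (s - 1 / 2) ?_ ?_ ?_
    · rw [Pool.Agent.H986R2.K4.XiAux.half_re]; linarith
    · rw [Pool.Agent.H986R2.K4.XiAux.half_im]
      exact s4.trans (le_abs_self _)
    · rw [← F_xi, iteratedDeriv_zero, xi_zero (by linarith)]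
      exact s1

theorem main :
    (∀ (m n : ℕ) (ε : ℝ), 0 < ε → ∃ K T : ℝ, ∀ s : ℂ, iteratedDeriv m xi s = 0 → 1 / 2 + ε ≤ s.re →
      T ≤ |s.im| → ∃ s' : ℂ, iteratedDeriv n xi s' = 0 ∧ s.re - ε < s'.re ∧
        |s'.im - s.im| ≤ K * Real.log |s.im|) ∧
    ∀ n : ℕ, (∃ θ : ℝ, θ < 1 ∧ ∀ s : ℂ, θ < s.re → riemannZeta s ≠ 0) ↔
      ∃ θ : ℝ, θ < 1 ∧ {s : ℂ | θ < s.re ∧ iteratedDeriv n xi s = 0}.Finite := by
  refine ⟨?_, q1⟩
  intro m n ε hε
  obtain ⟨K, T, -, -, h⟩ := shadow m n ε hε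
  refine ⟨K, T, fun s h0 h1 h2 => ?_⟩
  obtain ⟨w, w1, w2, w3⟩ := h (s - 1 / 2) ((F_xi m s).1 h0)
    (by rw [Pool.Agent.H986R2.K4.XiAux.half_re]; linarith)
    (by rw [Pool.Agent.H986R2.K4.XiAux.half_im]; exact h2)
  have e : (w + 1 / 2 - 1 / 2 : ℂ) = w := by ring
  have hre : (w + 1 / 2).re = w.re + 1 / 2 := by
    have := Pool.Agent.H986R2.K4.XiAux.half_re (w + 1 / 2)
    rw [e] at this
    linarith
  have him : (w + 1 / 2).im = w.im := by
    have := Pool.Agent.H986R2.K4.XiAux.half_im (w + 1 / 2)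
    rw [e] at this
    exact this.symm
  rw [Pool.Agent.H986R2.K4.XiAux.half_re] at w2
  rw [Pool.Agent.H986R2.K4.XiAux.half_im] at w3
  refine ⟨w + 1 / 2, (F_xi n _).2 (by rw [e]; exact w1), ?_, ?_⟩
  · rw [hre]; linarith
  · rw [him]; exact w3

end Pool.Agent.W186.DX
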