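import Pool.Agent.W186.DX.TR
import Pool.Agent.H986R2.K4.Xi
import Pool.Agent.H986R2.K4.V0

set_option autoImplicit false

namespace Pool.Agent.W186.DX

open Complex Filter Topology Set
open Pool.Agent.H24R2.JP (XX HH Om)
open Pool.Agent.H986R2.K4 (xi)

lemma F_half {n : ℕ} {z : ℂ} (h : F n z = 0) : |z.re| ≤ 1 / 2 := Pool.Agent.H24R2.DZ.strip n z h

lemma F_xi (n : ℕ) (s : ℂ) : iteratedDeriv n xi s = 0 ↔ F n (s - 1 / 2) = 0 :=
  Pool.Agent.H986R2.K4.XiAux.zero_iff n s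

lemma XX_conj (z : ℂ) : XX ((starRingEnd ℂ) z) = (starRingEnd ℂ) (XX z) := by
  rw [← Pool.Agent.H24R2.DZ.XBAux.xsymm, Pool.Agent.H24R2.JP.B1h.XX_neg]

lemma F_conj (n : ℕ) : ∀ z : ℂ, F n ((starRingEnd ℂ) z) = (starRingEnd ℂ) (F n z) := by
  induction n with
  | zero => intro z; rw [F_zero]; exact XX_conj z
  | succ n ih =>
    intro z
    have h1 := (F_deriv n z).conj_conj
    have h2 : (⇑(starRingEnd ℂ) ∘ F n ∘ ⇑(starRingEnd ℂ)) = F n := by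
      funext w
      simp only [Function.comp]
      rw [ih, Complex.conj_conj]
    rw [h2] at h1
    exact (F_deriv n _).unique h1

lemma F_not_zero (n : ℕ) : ∃ z : ℂ, F n z ≠ 0 := by
  obtain ⟨T0, hT0, h⟩ := baseN n (1 / 2) 2 (by norm_num) (by norm_num) (by norm_num)
  refine ⟨⟨1, T0⟩, (h T0 le_rfl ⟨1, T0⟩ (by norm_num) (by norm_num) rfl).1⟩

lemma F_fin (n : ℕ) (a b T : ℝ) : {z : ℂ | a ≤ z.re ∧ z.re ≤ b ∧ |z.im| ≤ T ∧ F n z = 0}.Finite := by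
  by_contra hinf
  have hinf' : {z : ℂ | a ≤ z.re ∧ z.re ≤ b ∧ |z.im| ≤ T ∧ F n z = 0}.Infinite := hinf
  have hK : IsCompact (Icc a b ×ℂ Icc (-T) T) := IsCompact.reProdIm isCompact_Icc isCompact_Icc
  obtain ⟨x, hx, hacc⟩ := hinf'.exists_accPt_of_subset_isCompact hK (fun z hz => by
    obtain ⟨h1, h2, h3, -⟩ := hz
    rw [mem_reProdIm]
    rw [abs_le] at h3
    exact ⟨⟨h1, h2⟩, h3⟩)
  rw [accPt_iff_frequently_nhdsNE] at hacc
  have h1 : ∃ᶠ z in 𝓝[≠] x, F n z = 0 := hacc.mono fun z hz => hz.2.2.2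
  have han : AnalyticOnNhd ℂ (F n) univ := fun z _ =>
    ((F_diff n).analyticAt z)
  have h2 := han.eqOn_zero_of_preconnected_of_frequently_eq_zero isPreconnected_univ (mem_univ x) h1
  obtain ⟨z, hz⟩ := F_not_zero n
  exact hz (h2 (mem_univ z))

/-- Local form in terms of `F`. -/
lemma loc (m n : ℕ) (y ε : ℝ) (hy : 0 ≤ y) (hε : 0 < ε) : ∃ K T0 : ℝ, 1 ≤ K ∧ 400 ≤ T0 ∧
    ∀ T : ℝ, T0 ≤ T → NZ n y K T → ∀ z : ℂ, y + ε ≤ z.re → |z.im - T| ≤ 1 → F m z ≠ 0 := by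
  rcases le_or_gt (1 / 2) y with hy2 | hy2
  · refine ⟨1, 400, le_rfl, le_rfl, fun T _ _ z hz _ h => ?_⟩
    have := F_half h
    rw [abs_le] at this
    linarith [this.2]
  · obtain ⟨K, T1, hK, hT1, hh⟩ := tp n m y (min ε 1) 1 hy hy2.le (lt_min hε one_pos) (min_le_right _ _) le_rfl
    obtain ⟨T3, hT3, hw⟩ := win 1 (by norm_num)
    refine ⟨1 + 2 * K, max (2 * T1) T3, by linarith, hT3.trans (le_max_right _ _), fun t ht hn z hz hz2 h0 => ?_⟩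
    have g1 : 2 * T1 ≤ t := (le_max_left _ _).trans ht
    have g3 : T3 ≤ t := (le_max_right _ _).trans ht
    have hl : 1 ≤ Real.log t := by
      rw [Real.le_log_iff_exp_le (by linarith)]
      have := Real.exp_one_lt_d9
      linarith
    have h5 : |z.im - t| ≤ 1 * Real.log t := by linarith
    obtain ⟨w1, w2, -⟩ := hw t z.im g3 h5
    have h6 := F_half h0
    rw [abs_le] at h6
    exact (hh z.im (by linarith) (hn.near (by linarith) h5 w2) z (by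
      have := min_le_left ε 1
      linarith) (by linarith [h6.2]) rfl).1 h0

/-- finitely many zeros to the right of `y + ε`, for every `ε` -/
def AF (n : ℕ) (y : ℝ) : Prop := ∀ ε : ℝ, 0 < ε → {z : ℂ | y + ε < z.re ∧ F n z = 0}.Finite

lemma AF.NZ {n : ℕ} {y : ℝ} (h : AF n y) (ε K : ℝ) (hε : 0 < ε) (hK : 0 ≤ K) : ∃ T0 : ℝ, 400 ≤ T0 ∧
    ∀ T : ℝ, T0 ≤ T → NZ n (y + ε) K T := by
  obtain ⟨H, hH⟩ : ∃ H : ℝ, ∀ z ∈ {z : ℂ | y + ε < z.re ∧ F n z = 0}, z.im ≤ H := by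
    have := (h ε hε).image Complex.im
    obtain ⟨H, hH⟩ := this.bddAbove
    exact ⟨H, fun z hz => hH ⟨z, hz, rfl⟩⟩
  obtain ⟨T3, hT3, hw⟩ := win K hK
  refine ⟨max T3 (2 * H + 1), hT3.trans (le_max_left _ _), fun T hT z hz hz2 h0 => ?_⟩
  have g1 : T3 ≤ T := (le_max_left _ _).trans hT
  have g2 : 2 * H + 1 ≤ T := (le_max_right _ _).trans hT
  obtain ⟨w1, -, -⟩ := hw T z.im g1 hz2
  have := hH z ⟨hz, h0⟩
  linarith

/-- no high zeros -/
lemma AF.high {n : ℕ} {y : ℝ} (h : AF n y) (hy : 0 ≤ y) (m : ℕ) (ε : ℝ) (hε : 0 < ε) :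
    ∃ T0 : ℝ, 400 ≤ T0 ∧ ∀ z : ℂ, y + ε < z.re → T0 ≤ |z.im| → F m z ≠ 0 := by
  obtain ⟨K, T1, hK, hT1, hl⟩ := loc m n (y + ε / 2) (ε / 2) (by linarith) (by linarith)
  obtain ⟨T2, hT2, hn⟩ := h.NZ (ε / 2) K (by linarith) (by linarith)
  have key : ∀ z : ℂ, y + ε < z.re → max T1 T2 ≤ z.im → F m z ≠ 0 := by
    intro z hz hz2
    exact hl z.im ((le_max_left _ _).trans hz2) (hn z.im ((le_max_right _ _).trans hz2)) z (by linarith) (by simp)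
  refine ⟨max T1 T2, hT1.trans (le_max_left _ _), fun z hz hz2 h0 => ?_⟩
  rcases le_total 0 z.im with h3 | h3
  · rw [abs_of_nonneg h3] at hz2
    exact key z hz hz2 h0
  · rw [abs_of_nonpos h3] at hz2
    refine key ((starRingEnd ℂ) z) (by simpa using hz) (by simpa using hz2) ?_
    rw [F_conj, h0, map_zero]

lemma AF.trans {n : ℕ} {y : ℝ} (h : AF n y) (hy : 0 ≤ y) (m : ℕ) : AF m y := by
  intro ε hε
  obtain ⟨T0, hT0, hh⟩ := h.high hy m ε hε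
  refine (F_fin m y (1 / 2) T0).subset fun z hz => ?_
  obtain ⟨h1, h2⟩ := hz
  refine ⟨by linarith, (abs_le.1 (F_half h2)).2, ?_, h2⟩
  by_contra h3
  push Not at h3
  exact hh z h1 h3.le h2

/-- size of zeta -/
lemma AF.zeta {n : ℕ} {y : ℝ} (h : AF n y) (hy : 0 ≤ y) (hy1 : y < 1 / 2) (ε : ℝ) (hε : 0 < ε) :
    ∃ T0 : ℝ, 400 ≤ T0 ∧ ∀ s : ℂ, 1 / 2 + y + ε ≤ s.re → s.re ≤ 2 → T0 ≤ s.im →
      riemannZeta s ≠ 0 ∧ s.im ^ (-ε) ≤ ‖riemannZeta s‖ ∧ ‖riemannZeta s‖ ≤ s.im ^ ε := by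
  obtain ⟨ε', he⟩ : ∃ ε' : ℝ, ε' = min (min (ε / 2) (1 / 2 - y)) 1 := ⟨_, rfl⟩
  have he0 : 0 < ε' := by rw [he]; exact lt_min (lt_min (by linarith) (by linarith)) one_pos
  have he1 : ε' ≤ ε / 2 := by rw [he]; exact (min_le_left _ _).trans (min_le_left _ _)
  have he2 : ε' ≤ 1 / 2 - y := by rw [he]; exact (min_le_left _ _).trans (min_le_right _ _)
  have he3 : ε' ≤ 1 := by rw [he]; exact min_le_right _ _
  obtain ⟨K, T1, hK, hT1, hl⟩ := tp n 0 (y + ε') ε' 2 (by linarith) (by linarith) he0 he3 (by norm_num)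
  obtain ⟨T2, hT2, hn⟩ := h.NZ ε' K he0 (by linarith)
  refine ⟨max T1 T2, hT1.trans (le_max_left _ _), fun s hs hs2 hst => ?_⟩
  have g1 : T1 ≤ s.im := (le_max_left _ _).trans hst
  have g2 : T2 ≤ s.im := (le_max_right _ _).trans hst
  have him : (s - 1 / 2).im = s.im := Pool.Agent.H986R2.K4.XiAux.half_im s
  have hre : (s - 1 / 2).re = s.re - 1 / 2 := Pool.Agent.H986R2.K4.XiAux.half_re s
  obtain ⟨a1, -, a2, a3⟩ := hl s.im g1 (hn s.im g2) (s - 1 / 2) (by rw [hre]; linarith) (by rw [hre]; linarith)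
    him
  have hX : F 0 (s - 1 / 2) = HH (s - 1 / 2) * riemannZeta s := by
    rw [F_zero, Pool.Agent.H24R2.JP.zetaS.1 (s - 1 / 2) (by rw [him]; linarith)]
    congr 2
    ring
  rw [hX] at a1 a2 a3
  have hH : HH (s - 1 / 2) ≠ 0 := left_ne_zero_of_mul a1
  have hHn : 0 < ‖HH (s - 1 / 2)‖ := norm_pos_iff.2 hH
  rw [norm_mul] at a2 a3
  have a4 : Real.exp (-(ε' * Real.log s.im)) ≤ ‖riemannZeta s‖ :=
    le_of_mul_le_mul_right (a2.trans (le_of_eq (mul_comm _ _))) hHn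
  have a5 : ‖riemannZeta s‖ ≤ Real.exp (ε' * Real.log s.im) :=
    le_of_mul_le_mul_right ((le_of_eq (mul_comm _ _)).trans a3) hHn
  have hpos : 0 < s.im := by linarith
  have hlog : 0 ≤ Real.log s.im := Real.log_nonneg (by linarith)
  refine ⟨right_ne_zero_of_mul a1, ?_, ?_⟩
  · refine le_trans ?_ a4
    rw [Real.rpow_def_of_pos hpos]
    apply Real.exp_le_exp.2
    nlinarith
  · refine a5.trans ?_
    rw [Real.rpow_def_of_pos hpos]
    apply Real.exp_le_exp.2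
    nlinarith

end Pool.Agent.W186.DX
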