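import Pool.Agent.W186.DX.HD
import Pool.Agent.H986R2.K4.SAB
import Pool.Agent.H986R2.K4.A1
import Pool.Agent.H24R2.DZ.XB

set_option autoImplicit false

/-!
# Local control of the derivatives of `XX z = 8 ξ(1/2 + z)`
-/

namespace Pool.Agent.W186.DX

open Complex Filter Topology Set
open Pool.Agent.H24R2.JP (XX HH Om)
open Pool.Agent.H24R2.JP.StirAux
open Pool.Agent.H986R2.K4

/-- the `n`-th derivative of `XX` -/
noncomputable def F (n : ℕ) : ℂ → ℂ := iteratedDeriv n XX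

lemma F_zero : F 0 = XX := by unfold F; exact iteratedDeriv_zero

lemma F_diff (n : ℕ) : Differentiable ℂ (F n) := by
  have h : ContDiff ℂ ⊤ XX := Pool.Agent.H24R2.JP.B1h.XX_diff.contDiff
  exact h.differentiable_iteratedDeriv n (by simp)

lemma F_deriv (n : ℕ) (z : ℂ) : HasDerivAt (F n) (F (n + 1) z) z := by
  have h := (F_diff n z).hasDerivAt
  have e : deriv (F n) z = F (n + 1) z := by
    unfold F
    rw [iteratedDeriv_succ]
  rwa [e] at h

lemma logDeriv_F (n : ℕ) (z : ℂ) : logDeriv (F n) z = F (n + 1) z / F n z := by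
  rw [logDeriv_apply, (F_deriv n z).deriv]

lemma im_line (t : ℝ) (u : ℂ) : (I * t + u).im = t + u.im := by simp

lemma re_line (t : ℝ) (u : ℂ) : (I * t + u).re = u.re := by simp

/-- size of the gamma factor at two points with the same imaginary part -/
lemma HH_compare (R : ℝ) (hR : 1 ≤ R) : ∃ K T0 : ℝ, 1 ≤ K ∧ 400 ≤ T0 ∧ ∀ z w : ℂ, T0 ≤ z.im →
    w.im = z.im → 0 ≤ w.re → w.re ≤ R → 0 ≤ z.re → z.re ≤ R →
    HH z ≠ 0 ∧ ‖logDeriv HH z - (Om z.im : ℂ)‖ ≤ K ∧
    ‖HH w‖ ≤ Real.exp (Om z.im * (w.re - z.re) + K) * ‖HH z‖ := by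
  obtain ⟨K, hK, h⟩ := Pool.Agent.H986R2.K4.hh
  obtain ⟨T0, hT0, h2⟩ := h R hR
  refine ⟨2 * K * R, max T0 400, by nlinarith, le_max_right _ _, ?_⟩
  intro z w hz hw hw0 hwR hz0 hzR
  have hzT : T0 ≤ z.im := (le_max_left _ _).trans hz
  have e1 : ∀ q : ℂ, q.im = z.im → I * (z.im : ℂ) + (q.re : ℂ) = q := by
    intro q hq
    apply Complex.ext
    · simp
    · simp [hq]
  have n1 : ∀ x : ℝ, 0 ≤ x → x ≤ R → ‖(x : ℂ)‖ ≤ R := by
    intro x hx hx2
    rw [Complex.norm_real, Real.norm_eq_abs, abs_of_nonneg hx]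
    exact hx2
  have a1 := h2 z.im (z.re : ℂ) hzT (n1 _ hz0 hzR)
  have a2 := h2 z.im (w.re : ℂ) hzT (n1 _ hw0 hwR)
  rw [e1 z rfl] at a1
  rw [e1 w hw] at a2
  obtain ⟨-, b1, b2, b3, -⟩ := a1
  obtain ⟨-, -, -, -, c4⟩ := a2
  rw [Complex.ofReal_re] at b3 c4
  refine ⟨b1, b2.trans (by nlinarith), ?_⟩
  refine c4.trans ?_
  have e3 : ‖HH (I * z.im)‖ = Real.exp (-(Om z.im * z.re - K * R)) *
      (Real.exp (Om z.im * z.re - K * R) * ‖HH (I * z.im)‖) := by
    rw [← mul_assoc, ← Real.exp_add]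
    simp
  rw [e3, ← mul_assoc, ← Real.exp_add]
  refine (mul_le_mul_of_nonneg_left b3 (Real.exp_pos _).le).trans (le_of_eq ?_)
  congr 2
  ring

/-- crude bound -/
lemma F_crude (n : ℕ) (R : ℝ) (hR : 1 ≤ R) : ∃ A T0 : ℝ, 1 ≤ A ∧ 400 ≤ T0 ∧ ∀ z : ℂ, T0 ≤ z.im →
    0 ≤ z.re → z.re ≤ R → ‖F n z‖ ≤ Real.exp (A * Real.log z.im) * ‖HH z‖ := by
  obtain ⟨K, T0, hT0, hX⟩ := Pool.Agent.H24R2.DZ.xb (R + 1)
  obtain ⟨K', T1, hK', hT1, hc⟩ := HH_compare R hR
  refine ⟨|K| + n.factorial + K' + 1, max T0 T1, by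
    have := abs_nonneg K
    have h2 : (0 : ℝ) ≤ n.factorial := Nat.cast_nonneg _
    linarith, hT1.trans (le_max_right _ _), ?_⟩
  intro z hz h0 h1
  have hz0 : T0 ≤ z.im := (le_max_left _ _).trans hz
  have hz1 : T1 ≤ z.im := (le_max_right _ _).trans hz
  have him : 400 ≤ z.im := hT1.trans hz1
  have hlog : 1 ≤ Real.log z.im := by
    rw [Real.le_log_iff_exp_le (by linarith)]
    have := Real.exp_one_lt_d9
    linarith
  have hC : ∀ w ∈ Metric.sphere z 1, ‖XX w‖ ≤ Real.exp (K * Real.log z.im) * ‖HH (I * z.im)‖ := by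
    intro w hw
    have h2 : ‖w - z‖ = 1 := by rw [← dist_eq_norm]; exact hw
    have e : I * (z.im : ℂ) + ((z.re : ℂ) + (w - z)) = w := by
      apply Complex.ext
      · simp
      · simp
    have h3 := (hX z.im ((z.re : ℂ) + (w - z)) hz0 (by
      refine (norm_add_le _ _).trans ?_
      rw [h2, Complex.norm_real, Real.norm_eq_abs, abs_of_nonneg h0]
      linarith)).1
    rwa [e] at h3
  have h4 := Complex.norm_iteratedDeriv_le_of_forall_mem_sphere_norm_le n (by norm_num : (0 : ℝ) < 1)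
    (Pool.Agent.H24R2.JP.B1h.XX_diff.diffContOnCl) hC
  have h5 := (hc z (I * z.im) hz1 (by simp) (by simp) (by simp; linarith) h0 h1).2.2
  rw [one_pow, div_one] at h4
  refine h4.trans ?_
  have hf : (n.factorial : ℝ) ≤ Real.exp (n.factorial * Real.log z.im) := by
    have h6 := Real.add_one_le_exp ((n.factorial : ℝ) * Real.log z.im)
    have h7 : (0 : ℝ) ≤ n.factorial := Nat.cast_nonneg _
    nlinarith
  have h8 : Real.exp (K * Real.log z.im) ≤ Real.exp (|K| * Real.log z.im) :=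
    Real.exp_le_exp.2 (mul_le_mul_of_nonneg_right (le_abs_self _) (by linarith))
  have h9 : ‖HH (I * z.im)‖ ≤ Real.exp (K' * Real.log z.im) * ‖HH z‖ := by
    refine h5.trans ?_
    have : Real.exp (Om z.im * ((I * (z.im : ℂ)).re - z.re) + K') ≤ Real.exp (K' * Real.log z.im) := by
      apply Real.exp_le_exp.2
      have hOm : 0 ≤ Om z.im := by unfold Om; linarith
      have : (I * (z.im : ℂ)).re = 0 := by simp
      rw [this]
      nlinarith
    gcongr
  calc (n.factorial : ℝ) * (Real.exp (K * Real.log z.im) * ‖HH (I * z.im)‖)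
      ≤ Real.exp (n.factorial * Real.log z.im) * (Real.exp (|K| * Real.log z.im) *
        (Real.exp (K' * Real.log z.im) * ‖HH z‖)) := by gcongr
    _ = Real.exp ((|K| + n.factorial + K') * Real.log z.im) * ‖HH z‖ := by
        rw [← mul_assoc, ← mul_assoc, ← Real.exp_add, ← Real.exp_add]
        congr 2
        ring
    _ ≤ Real.exp ((|K| + n.factorial + K' + 1) * Real.log z.im) * ‖HH z‖ := by
        have : (|K| + n.factorial + K') * Real.log z.im ≤
            (|K| + n.factorial + K' + 1) * Real.log z.im := by nlinarith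
        have h10 := Real.exp_le_exp.2 this
        gcongr

/-- Control of `F n` on the horizontal segment at height `t`. -/
def Wd (n : ℕ) (y ε R t : ℝ) : Prop := ∀ z : ℂ, y + ε ≤ z.re → z.re ≤ R → z.im = t →
  F n z ≠ 0 ∧ ‖logDeriv (F n) z - (Om t : ℂ)‖ ≤ ε * Om t ∧
  Real.exp (-(ε * Real.log t)) * ‖HH z‖ ≤ ‖F n z‖ ∧ ‖F n z‖ ≤ Real.exp (ε * Real.log t) * ‖HH z‖

lemma Wd.mono {n : ℕ} {y y' ε ε' R R' t : ℝ} (h : Wd n y ε R t) (hy : y ≤ y') (hε : ε ≤ ε') (hR : R' ≤ R)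
    (ht : 1 ≤ t) : Wd n y' ε' R' t := by
  intro z h1 h2 h3
  obtain ⟨a1, a2, a3, a4⟩ := h z (by linarith) (h2.trans hR) h3
  have hl : 0 ≤ Real.log t := Real.log_nonneg ht
  have hO : 0 ≤ Om t := by unfold Om; linarith
  refine ⟨a1, a2.trans (by nlinarith), le_trans ?_ a3, a4.trans ?_⟩
  · have : Real.exp (-(ε' * Real.log t)) ≤ Real.exp (-(ε * Real.log t)) :=
      Real.exp_le_exp.2 (by nlinarith)
    gcongr
  · have : Real.exp (ε * Real.log t) ≤ Real.exp (ε' * Real.log t) :=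
      Real.exp_le_exp.2 (by nlinarith)
    gcongr

end Pool.Agent.W186.DX
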