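import Pool.Agent.W186.DX.Down
import Pool.Agent.H24R2.DZ.Strip

set_option autoImplicit false

namespace Pool.Agent.W186.DX

open Complex Filter Topology Set
open Pool.Agent.H24R2.JP (XX HH Om)

/-- no zeros of `F n` to the right of `y`, in a window of length `K log t` -/
def NZ (n : ℕ) (y K t : ℝ) : Prop :=
  ∀ z : ℂ, y < z.re → |z.im - t| ≤ K * Real.log t → F n z ≠ 0

lemma win (C : ℝ) (hC : 0 ≤ C) : ∃ T0 : ℝ, 400 ≤ T0 ∧ ∀ t t' : ℝ, T0 ≤ t → |t' - t| ≤ C * Real.log t →
    t / 2 ≤ t' ∧ Real.log t' ≤ 2 * Real.log t ∧ 1 ≤ Real.log t := by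
  have h1 := Real.isLittleO_log_id_atTop.bound (show 0 < 1 / (2 * (C + 1)) by positivity)
  obtain ⟨t4, h⟩ := Filter.eventually_atTop.1 (h1.and (eventually_ge_atTop 400))
  refine ⟨max t4 400, le_max_right _ _, fun t t' ht htt => ?_⟩
  obtain ⟨h2, h3⟩ := h t ((le_max_left _ _).trans ht)
  rw [Real.norm_eq_abs, id, Real.norm_eq_abs, abs_of_nonneg (by linarith : (0 : ℝ) ≤ t)] at h2
  have h4 := (le_abs_self _).trans h2
  have hl : 1 ≤ Real.log t := by
    rw [Real.le_log_iff_exp_le (by linarith)]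
    have := Real.exp_one_lt_d9
    linarith
  have h5 : C * Real.log t ≤ t / 2 := by
    have h6 : (C + 1) * Real.log t ≤ (C + 1) * (1 / (2 * (C + 1)) * t) := by gcongr
    have h7 : (C + 1) * (1 / (2 * (C + 1)) * t) = t / 2 := by field_simp
    rw [h7] at h6
    nlinarith
  rw [abs_le] at htt
  have h8 : 0 < t' := by linarith [htt.1]
  refine ⟨by linarith [htt.1], ?_, hl⟩
  have h9 : Real.log t' ≤ Real.log (t ^ 2) := Real.log_le_log h8 (by nlinarith [htt.2])
  rw [Real.log_pow] at h9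
  exact_mod_cast h9

lemma NZ.near {n : ℕ} {y K C t t' : ℝ} (hK : 0 ≤ K) (h : NZ n y (C + 2 * K) t)
    (h1 : |t' - t| ≤ C * Real.log t) (h2 : Real.log t' ≤ 2 * Real.log t) : NZ n y K t' := by
  intro z hz hz2
  apply h z hz
  have e : z.im - t = (z.im - t') + (t' - t) := by ring
  rw [e]
  refine (abs_add_le _ _).trans ?_
  nlinarith

/-- The transfer principle. -/
def TP (n m : ℕ) : Prop := ∀ y ε R : ℝ, 0 ≤ y → y ≤ 1 / 2 → 0 < ε → ε ≤ 1 → 1 ≤ R →
  ∃ K T0 : ℝ, 1 ≤ K ∧ 400 ≤ T0 ∧ ∀ t : ℝ, T0 ≤ t → NZ n y K t → Wd m y ε R t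

lemma tp_diag (n : ℕ) : TP n n := by
  intro y ε R h0 h1 h2 h3 h4
  obtain ⟨T0, hT0, h⟩ := zf n y ε R h0 h1 h2 h3 h4
  refine ⟨10, T0, by norm_num, hT0, fun t ht hn => h t ht fun z hz hz2 => hn z hz ?_⟩
  have hl : 1 ≤ Real.log t := by
    rw [Real.le_log_iff_exp_le (by linarith)]
    have := Real.exp_one_lt_d9
    linarith
  linarith

lemma tp_up (n m : ℕ) (h : TP n m) : TP n (m + 1) := by
  intro y ε R h0 h1 h2 h3 h4
  obtain ⟨K, T1, hK, hT1, hh⟩ := h y (ε / 24) (R + 1) h0 h1 (by linarith) (by linarith) (by linarith)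
  obtain ⟨T2, hT2, hu⟩ := up m y ε R h2 h3
  obtain ⟨T3, hT3, hw⟩ := win 1 (by norm_num)
  refine ⟨1 + 2 * K, max (max (2 * T1) T2) T3, by linarith, hT3.trans (le_max_right _ _), fun t ht hn => ?_⟩
  have g1 : 2 * T1 ≤ t := ((le_max_left _ _).trans (le_max_left _ _)).trans ht
  have g2 : T2 ≤ t := ((le_max_right _ _).trans (le_max_left _ _)).trans ht
  have g3 : T3 ≤ t := (le_max_right _ _).trans ht
  refine hu t g2 fun t' ht' => ?_
  have hl : 1 ≤ Real.log t := by
    rw [Real.le_log_iff_exp_le (by linarith)]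
    have := Real.exp_one_lt_d9
    linarith
  have h5 : |t' - t| ≤ 1 * Real.log t := by linarith
  obtain ⟨w1, w2, -⟩ := hw t t' g3 h5
  exact hh t' (by linarith) (hn.near (by linarith) h5 w2)

lemma tp_down (n m : ℕ) (h : TP n (m + 1)) : TP n m := by
  intro y ε R h0 h1 h2 h3 h4
  obtain ⟨K, T1, hK, hT1, hh⟩ := h y (ε / 20) R h0 h1 (by linarith) (by linarith) (by linarith)
  obtain ⟨K1, T2, hK1, hT2, hu⟩ := down m y ε R h0 h1 h2 h3 h4
  obtain ⟨T3, hT3, hw⟩ := win K1 (by linarith)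
  refine ⟨K1 + 2 * K, max (max (2 * T1) T2) T3, by linarith, hT3.trans (le_max_right _ _), fun t ht hn => ?_⟩
  have g1 : 2 * T1 ≤ t := ((le_max_left _ _).trans (le_max_left _ _)).trans ht
  have g2 : T2 ≤ t := ((le_max_right _ _).trans (le_max_left _ _)).trans ht
  have g3 : T3 ≤ t := (le_max_right _ _).trans ht
  refine hu t g2 fun t' ht' ht'' => ?_
  have h5 : |t' - t| ≤ K1 * Real.log t := by
    rw [abs_of_nonneg (by linarith)]
    linarith
  obtain ⟨w1, w2, -⟩ := hw t t' g3 h5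
  exact hh t' (by linarith) (hn.near (by linarith) h5 w2)

theorem tp (n m : ℕ) : TP n m := by
  rcases le_total n m with h | h
  · obtain ⟨k, rfl⟩ := Nat.exists_eq_add_of_le h
    clear h
    induction k with
    | zero => exact tp_diag n
    | succ k ih => exact tp_up n (n + k) ih
  · obtain ⟨k, rfl⟩ := Nat.exists_eq_add_of_le h
    clear h
    have key : ∀ j i : ℕ, i + j = k → TP (m + k) (m + i) := by
      intro j
      induction j with
      | zero =>
        intro i hi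
        have : i = k := by omega
        subst this
        exact tp_diag _
      | succ j ih =>
        intro i hi
        exact tp_down (m + k) (m + i) (ih (i + 1) (by omega))
    exact key k 0 (by omega)

end Pool.Agent.W186.DX
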