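import Pool.Agent.W186.DX.Base

set_option autoImplicit false

namespace Pool.Agent.W186.DX

open Complex Filter Topology Set
open Pool.Agent.H24R2.JP (XX HH Om)
open Pool.Agent.H24R2.JP.StirAux
open Pool.Agent.H986R2.K4

lemma Om_near {t t' : ℝ} (ht : 400 ≤ t) (h : |t' - t| ≤ 1) : |Om t' - Om t| ≤ 1 := by
  rw [abs_le] at h
  have h0 : 0 < t := by linarith
  have h1 : 0 < t' := by linarith
  have a1 : Real.log t' ≤ Real.log (2 * t) := Real.log_le_log h1 (by linarith)
  have a2 : Real.log t ≤ Real.log (2 * t') := Real.log_le_log h0 (by linarith)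
  rw [Real.log_mul (by norm_num) h0.ne'] at a1
  rw [Real.log_mul (by norm_num) h1.ne'] at a2
  have hl2 : Real.log 2 ≤ 1 := by linarith [Real.log_two_lt_d9]
  unfold Om
  rw [abs_le]
  constructor <;> linarith

lemma up (n : ℕ) (y ε R : ℝ) (hε : 0 < ε) (hε1 : ε ≤ 1) : ∃ T0 : ℝ, 400 ≤ T0 ∧
    ∀ t : ℝ, T0 ≤ t → (∀ t' : ℝ, |t' - t| ≤ 1 → Wd n y (ε / 24) (R + 1) t') → Wd (n + 1) y ε R t := by
  obtain ⟨t2, ht2⟩ := Filter.eventually_atTop.1
    ((Real.tendsto_log_atTop.const_mul_atTop (show 0 < ε / 48 by linarith)).eventually_ge_atTop 3)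
  obtain ⟨t3, ht3⟩ : ∃ t3 : ℝ, ∀ t : ℝ, t3 ≤ t → Real.log t ≤ Real.exp (ε / 2 * Real.log t) := by
    have h1 : Tendsto (fun x : ℝ => Real.exp (ε / 2 * x) / x) atTop atTop := by
      have := tendsto_exp_mul_div_rpow_atTop 1 (ε / 2) (by linarith)
      simpa using this
    have h2 := (h1.comp Real.tendsto_log_atTop).eventually_ge_atTop 1
    obtain ⟨t3, ht3⟩ := Filter.eventually_atTop.1 (h2.and (eventually_gt_atTop (Real.exp 1)))
    refine ⟨t3, fun t ht => ?_⟩
    obtain ⟨h3, h4⟩ := ht3 t ht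
    have h5 : 0 < Real.log t := Real.log_pos (lt_trans (Real.one_lt_exp_iff.2 one_pos) h4)
    simp only [Function.comp] at h3
    rwa [one_le_div h5] at h3
  refine ⟨max 400 (max t2 t3), le_max_left _ _, ?_⟩
  intro t ht hW z h1 h2 h3
  have ht400 : 400 ≤ t := (le_max_left _ _).trans ht
  have htpos : 0 < t := by linarith
  have g2 := ht2 t ((le_max_left _ _).trans ((le_max_right _ _).trans ht))
  have g3 := ht3 t ((le_max_right _ _).trans ((le_max_right _ _).trans ht))
  have hOm : Om t = Real.log t / 2 := rfl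
  have hO : 3 ≤ ε / 24 * Om t := by rw [hOm]; linarith
  have hO2 : 72 ≤ Om t := by nlinarith
  -- points of the ball
  have hball : ∀ w : ℂ, ‖w - z‖ < ε / 2 → F n w ≠ 0 ∧ ‖logDeriv (F n) w - (Om t : ℂ)‖ ≤ ε / 12 * Om t := by
    intro w hw
    have i1 := Complex.abs_re_le_norm (w - z)
    have i2 := Complex.abs_im_le_norm (w - z)
    rw [Complex.sub_re, abs_le] at i1
    rw [Complex.sub_im, abs_le] at i2
    have hd : |w.im - t| ≤ 1 := by
      rw [← h3, abs_le]
      constructor <;> linarith [i2.1, i2.2]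
    obtain ⟨b1, b2, -, -⟩ := hW w.im hd w (by linarith [i1.1]) (by linarith [i1.2]) rfl
    refine ⟨b1, ?_⟩
    have b3 := Om_near ht400 hd
    have e : logDeriv (F n) w - (Om t : ℂ) =
        (logDeriv (F n) w - (Om w.im : ℂ)) + ((Om w.im - Om t : ℝ) : ℂ) := by push_cast; ring
    rw [e]
    refine (norm_add_le _ _).trans ?_
    rw [Complex.norm_real, Real.norm_eq_abs]
    have b4 : Om w.im ≤ Om t + 1 := by linarith [(abs_le.1 b3).2]
    have b5 : ε / 24 * Om w.im ≤ ε / 24 * Om t + 1 := by nlinarith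
    linarith
  obtain ⟨c1, c2⟩ := hball z (by simp; linarith)
  have hDd : ∀ w : ℂ, ‖w - z‖ < ε / 2 → DifferentiableAt ℂ (logDeriv (F n)) w := by
    intro w hw
    have e : logDeriv (F n) = fun w => F (n + 1) w / F n w := by
      funext w
      exact logDeriv_F n w
    rw [e]
    exact (F_diff (n + 1) w).div (F_diff n w) (hball w hw).1
  -- Cauchy
  have hC := Complex.norm_deriv_le_of_forall_mem_sphere_norm_le
    (f := fun w => logDeriv (F n) w - (Om t : ℂ)) (c := z) (C := ε / 12 * Om t) (R := ε / 4)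
    (by linarith) ?_ ?_
  rotate_left
  · apply DifferentiableOn.diffContOnCl
    intro w hw
    have hw2 : w ∈ Metric.closedBall z (ε / 4) := Metric.closure_ball_subset_closedBall hw
    rw [Metric.mem_closedBall, dist_eq_norm] at hw2
    exact ((hDd w (by linarith)).sub_const _).differentiableWithinAt
  · intro w hw
    rw [mem_sphere_iff_norm] at hw
    exact (hball w (by linarith)).2
  have hD' : deriv (fun w => logDeriv (F n) w - (Om t : ℂ)) z = deriv (logDeriv (F n)) z := by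
    rw [deriv_sub_const]
  rw [hD'] at hC
  have hC2 : ‖deriv (logDeriv (F n)) z‖ ≤ Om t / 3 := by
    refine hC.trans (le_of_eq ?_)
    field_simp
    ring
  -- the value of D
  obtain ⟨D, hD⟩ : ∃ D, D = logDeriv (F n) z := ⟨_, rfl⟩
  rw [← hD] at c2
  have hDlow : Om t / 2 ≤ ‖D‖ := by
    have h4 : ‖(Om t : ℂ)‖ - ‖D - (Om t : ℂ)‖ ≤ ‖D‖ := by
      have := norm_sub_norm_le (Om t : ℂ) (Om t - D)
      rw [sub_sub_cancel, norm_sub_rev (Om t : ℂ) D] at this
      exact this
    rw [Complex.norm_real, Real.norm_eq_abs, abs_of_pos (by linarith)] at h4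
    nlinarith
  have hDup : ‖D‖ ≤ 2 * Om t := by
    have h4 : ‖D‖ ≤ ‖D - (Om t : ℂ)‖ + ‖(Om t : ℂ)‖ := by
      have := norm_add_le (D - (Om t : ℂ)) (Om t : ℂ)
      rwa [sub_add_cancel] at this
    rw [Complex.norm_real, Real.norm_eq_abs, abs_of_pos (by linarith)] at h4
    nlinarith
  have hDne : D ≠ 0 := by
    rw [← norm_pos_iff]
    linarith
  have hF1 : F (n + 1) z = F n z * D := by
    rw [hD, logDeriv_F, mul_div_cancel₀ _ c1]
  have hF1ne : F (n + 1) z ≠ 0 := by rw [hF1]; exact mul_ne_zero c1 hDne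
  have hF2 : F (n + 2) z = F (n + 1) z * D + F n z * deriv (logDeriv (F n)) z := by
    have e1 : F (n + 1) =ᶠ[𝓝 z] fun w => F n w * logDeriv (F n) w := by
      filter_upwards [Metric.ball_mem_nhds z (show 0 < ε / 2 by linarith)] with w hw
      rw [Metric.mem_ball, dist_eq_norm] at hw
      rw [logDeriv_F, mul_div_cancel₀ _ (hball w hw).1]
    have e2 := (F_deriv (n + 1) z).deriv
    rw [← e2, e1.deriv_eq]
    have e3 := (F_deriv n z).mul (hDd z (by simp; linarith)).hasDerivAt
    rw [hD]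
    exact e3.deriv
  have hlog2 : logDeriv (F (n + 1)) z = D + deriv (logDeriv (F n)) z / D := by
    rw [logDeriv_F, hF2, add_div, mul_div_assoc, mul_comm (F (n + 1) z), div_mul_cancel₀ _ hF1ne, hF1]
    congr 1
    rw [mul_div_mul_left _ _ c1]
  obtain ⟨-, -, d3, d4⟩ := hW t (by simp) z (by linarith) (by linarith) h3
  refine ⟨hF1ne, ?_, ?_, ?_⟩
  · rw [hlog2]
    have e : D + deriv (logDeriv (F n)) z / D - (Om t : ℂ) = (D - (Om t : ℂ)) +
      deriv (logDeriv (F n)) z / D := by ring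
    rw [e]
    refine (norm_add_le _ _).trans ?_
    have h5 : ‖deriv (logDeriv (F n)) z / D‖ ≤ 1 := by
      rw [norm_div, div_le_one (by linarith)]
      linarith
    nlinarith
  · rw [hF1, norm_mul]
    have h6 : Real.exp (-(ε * Real.log t)) * ‖HH z‖ ≤ Real.exp (-(ε / 24 * Real.log t)) * ‖HH z‖ := by
      have : Real.exp (-(ε * Real.log t)) ≤ Real.exp (-(ε / 24 * Real.log t)) := by
        apply Real.exp_le_exp.2
        nlinarith
      gcongr
    have h7 : ‖F n z‖ ≤ ‖F n z‖ * ‖D‖ := le_mul_of_one_le_right (norm_nonneg _) (by linarith)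
    exact h6.trans (d3.trans h7)
  · rw [hF1, norm_mul]
    have h8 : ‖D‖ ≤ Real.exp (ε / 2 * Real.log t) := by
      refine hDup.trans (le_trans ?_ g3)
      rw [hOm]
      linarith
    calc ‖F n z‖ * ‖D‖ ≤ (Real.exp (ε / 24 * Real.log t) * ‖HH z‖) * Real.exp (ε / 2 * Real.log t) := by
          gcongr
      _ = Real.exp ((ε / 24 + ε / 2) * Real.log t) * ‖HH z‖ := by
          rw [mul_right_comm, ← Real.exp_add]
          congr 2
          ring
      _ ≤ Real.exp (ε * Real.log t) * ‖HH z‖ := by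
          have : Real.exp ((ε / 24 + ε / 2) * Real.log t) ≤ Real.exp (ε * Real.log t) := by
            apply Real.exp_le_exp.2
            nlinarith
          gcongr

/-- unconditional control to the right of `Re z = 1/2` -/
lemma baseN (n : ℕ) : ∀ (ε R : ℝ), 0 < ε → ε ≤ 1 → 1 ≤ R → ∃ T0 : ℝ, 400 ≤ T0 ∧ ∀ t : ℝ, T0 ≤ t →
    Wd n (1 / 2) ε R t := by
  induction n with
  | zero => intro ε R hε _ hR; exact base0 ε R hε hR
  | succ n ih =>
    intro ε R hε hε1 hR
    obtain ⟨T1, hT1, h1⟩ := ih (ε / 24) (R + 1) (by linarith) (by linarith) (by linarith)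
    obtain ⟨T2, hT2, h2⟩ := up n (1 / 2) ε R hε hε1
    refine ⟨max (T1 + 1) T2, hT2.trans (le_max_right _ _), fun t ht => ?_⟩
    refine h2 t ((le_max_right _ _).trans ht) fun t' ht' => h1 t' ?_
    have := (le_max_left _ _).trans ht
    rw [abs_le] at ht'
    linarith [ht'.1]

end Pool.Agent.W186.DX
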