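import Pool.Agent.W186.DX.Up

set_option autoImplicit false

namespace Pool.Agent.W186.DX

open Complex Filter Topology Set
open Pool.Agent.H24R2.JP (XX HH Om)
open Pool.Agent.H24R2.JP.StirAux
open Pool.Agent.H986R2.K4

/-- A zero-free rectangle gives control. -/
lemma zf (n : ℕ) (y ε R : ℝ) (hy0 : 0 ≤ y) (hy1 : y ≤ 1 / 2) (hε : 0 < ε) (hε1 : ε ≤ 1) (hR : 1 ≤ R) :
    ∃ T0 : ℝ, 400 ≤ T0 ∧ ∀ t : ℝ, T0 ≤ t →
      (∀ z : ℂ, y < z.re → |z.im - t| ≤ 10 → F n z ≠ 0) → Wd n y ε R t := by
  obtain ⟨A, T1, hA, hT1, hcr⟩ := F_crude n 11 (by norm_num)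
  obtain ⟨η0, hη0⟩ : ∃ η0 : ℝ, η0 = min ε (1 / 4) := ⟨_, rfl⟩
  have hη00 : 0 < η0 := by rw [hη0]; exact lt_min hε (by norm_num)
  have hη04 : η0 ≤ 1 / 4 := by rw [hη0]; exact min_le_right _ _
  have hη0ε : η0 ≤ ε := by rw [hη0]; exact min_le_left _ _
  obtain ⟨ε1, hε1p, hsab⟩ := Pool.Agent.H986R2.K4.sab η0 (ε / 4) (2 * A) hη00 hη04 (by linarith) (by linarith)
  obtain ⟨ε2, hε2⟩ : ∃ ε2 : ℝ, ε2 = min (ε1 / 2) 1 := ⟨_, rfl⟩
  have hε2p : 0 < ε2 := by rw [hε2]; exact lt_min (by linarith) one_pos
  have hε21 : ε2 ≤ 1 := by rw [hε2]; exact min_le_right _ _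
  have hε22 : ε2 ≤ ε1 / 2 := by rw [hε2]; exact min_le_left _ _
  obtain ⟨T2, hT2, hb⟩ := baseN n ε2 11 hε2p hε21 (by norm_num)
  obtain ⟨T3, hT3, hb3⟩ := baseN n ε R hε hε1 hR
  obtain ⟨K, T4, hK, hT4, hc⟩ := HH_compare 11 (by norm_num)
  obtain ⟨t5, ht5⟩ := Filter.eventually_atTop.1
    ((Real.tendsto_log_atTop.const_mul_atTop (show 0 < ε / 4 by linarith)).eventually_ge_atTop K)
  refine ⟨max (max (max T1 T2) (max T3 T4) + 10) t5, le_trans (by
    have := le_max_left (max T1 T2) (max T3 T4)
    have h2 := le_max_left T1 T2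
    linarith) (le_max_left _ _), ?_⟩
  intro t ht hzf
  have ht' : max (max T1 T2) (max T3 T4) + 10 ≤ t := (le_max_left _ _).trans ht
  have g1 : T1 + 10 ≤ t := by
    have := (le_max_left T1 T2).trans (le_max_left (max T1 T2) (max T3 T4)); linarith
  have g2 : T2 + 10 ≤ t := by
    have := (le_max_right T1 T2).trans (le_max_left (max T1 T2) (max T3 T4)); linarith
  have g3 : T3 + 10 ≤ t := by
    have := (le_max_left T3 T4).trans (le_max_right (max T1 T2) (max T3 T4)); linarith
  have g4 : T4 + 10 ≤ t := by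
    have := (le_max_right T3 T4).trans (le_max_right (max T1 T2) (max T3 T4)); linarith
  have g5 := ht5 t ((le_max_right _ _).trans ht)
  have ht410 : 410 ≤ t := by linarith
  have htpos : 0 < t := by linarith
  have hlog : 1 ≤ Real.log t := by
    rw [Real.le_log_iff_exp_le (by linarith)]
    have := Real.exp_one_lt_d9
    linarith
  have hlog2 : ∀ t' : ℝ, |t' - t| ≤ 10 → 0 ≤ Real.log t' ∧ Real.log t' ≤ 2 * Real.log t := by
    intro t' h
    rw [abs_le] at h
    have h0 : 1 ≤ t' := by linarith [h.1]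
    refine ⟨Real.log_nonneg h0, ?_⟩
    have h1 : Real.log t' ≤ Real.log (t ^ 2) := Real.log_le_log (by linarith) (by nlinarith [h.2])
    rw [Real.log_pow] at h1
    exact_mod_cast h1
  obtain ⟨p, hp⟩ : ∃ p : ℂ, p = (y : ℂ) + I * t := ⟨_, rfl⟩
  have hpre : ∀ u : ℂ, (p + u).re = y + u.re := fun u => by rw [hp]; simp
  have hpim : ∀ u : ℂ, (p + u).im = t + u.im := fun u => by rw [hp]; simp
  obtain ⟨g, hg⟩ : ∃ g : ℂ → ℂ, g = fun u => F n (p + u) / HH (p + u) := ⟨_, rfl⟩
  -- facts about the points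
  have hpt : ∀ u : ℂ, 0 < u.re → u.re ≤ 10 → |u.im| ≤ 10 → 0 < (p + u).im ∧ HH (p + u) ≠ 0 ∧
      DifferentiableAt ℂ HH (p + u) := by
    intro u h1 h2 h3
    rw [abs_le] at h3
    have h4 : 0 < (p + u).im := by rw [hpim]; linarith [h3.1]
    exact ⟨h4, HH_ne h4, HH_diff h4⟩
  have hadd : ∀ u : ℂ, HasDerivAt (fun u : ℂ => p + u) 1 u := fun u => (hasDerivAt_id u).const_add p
  have S := hsab (Real.log t) g hlog ?_ ?_
  · -- conclusion
    intro z h1 h2 h3
    rcases le_or_gt z.re (y + 3) with h4 | h4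
    · obtain ⟨u, hu⟩ : ∃ u : ℂ, u = z - p := ⟨_, rfl⟩
      have hz : p + u = z := by rw [hu]; ring
      have hure : u.re = z.re - y := by
        have := hpre u; rw [hz] at this; linarith
      have huim : u.im = 0 := by
        have := hpim u; rw [hz] at this; linarith
      obtain ⟨s1, s2, s3⟩ := S u (by linarith) (by linarith) (by rw [huim]; norm_num)
      obtain ⟨q1, q2, q3⟩ := hpt u (by linarith) (by linarith) (by rw [huim]; norm_num)
      have hFne : F n z ≠ 0 := hzf z (by linarith) (by rw [h3]; norm_num)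
      rw [hz] at q1 q2 q3
      obtain ⟨-, c2, -⟩ := hc z z (by linarith) rfl (by linarith) (by linarith) (by linarith) (by linarith)
      rw [h3] at c2
      have hgu : g u = F n z / HH z := by rw [hg]; simp only [hz]
      have hlg : logDeriv g u = logDeriv (F n) z - logDeriv HH z := by
        have e1 : HasDerivAt (fun u => F n (p + u)) (F (n + 1) z) u := by
          have := HasDerivAt.comp u (F_deriv n (p + u)) (hadd u)
          rw [mul_one, hz] at this
          exact this
        have e2 : HasDerivAt (fun u => HH (p + u)) (deriv HH z) u := by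
          have h5 : HasDerivAt HH (deriv HH z) (p + u) := by rw [hz]; exact q3.hasDerivAt
          have := HasDerivAt.comp u h5 (hadd u)
          rw [mul_one] at this
          exact this
        have e3 := logDeriv_div (f := fun u => F n (p + u)) (g := fun u => HH (p + u)) u
          (by simpa only [hz] using hFne) (by simpa only [hz] using q2) e1.differentiableAt e2.differentiableAt
        rw [hg]
        rw [e3, logDeriv_apply, logDeriv_apply, e1.deriv, e2.deriv, logDeriv_F, logDeriv_apply]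
        simp only [hz]
      have hHpos : 0 < ‖HH z‖ := norm_pos_iff.2 q2
      have hFn : ‖F n z‖ = ‖g u‖ * ‖HH z‖ := by
        rw [hgu, norm_div, div_mul_cancel₀ _ hHpos.ne']
      refine ⟨hFne, ?_, ?_, ?_⟩
      · have e : logDeriv (F n) z - (Om t : ℂ) = logDeriv g u + (logDeriv HH z - (Om t : ℂ)) := by
          rw [hlg]; ring
        rw [e]
        refine (norm_add_le _ _).trans ?_
        refine (add_le_add s1 c2).trans ?_
        have : Om t = Real.log t / 2 := rfl
        rw [this]
        linarith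
      · rw [hFn]
        have : Real.exp (-(ε * Real.log t)) ≤ ‖g u‖ := by
          refine le_trans (Real.exp_le_exp.2 ?_) s2
          nlinarith
        gcongr
      · rw [hFn]
        have : ‖g u‖ ≤ Real.exp (ε * Real.log t) := by
          refine s3.trans (Real.exp_le_exp.2 ?_)
          nlinarith
        gcongr
    · exact hb3 t (by linarith) z (by linarith) h2 h3
  · intro u h1 h2 h3
    obtain ⟨q1, q2, q3⟩ := hpt u h1 h2 h3
    have hd : |(p + u).im - t| ≤ 10 := by rw [hpim]; simpa using h3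
    refine ⟨?_, ?_, ?_⟩
    · rw [hg]
      have e1 := HasDerivAt.comp u (F_deriv n (p + u)) (hadd u)
      have e2 := HasDerivAt.comp u q3.hasDerivAt (hadd u)
      exact e1.differentiableAt.div e2.differentiableAt q2
    · rw [hg]
      exact div_ne_zero (hzf _ (by rw [hpre]; linarith) hd) q2
    · rw [hg]
      simp only [norm_div]
      rw [div_le_iff₀ (norm_pos_iff.2 q2)]
      have hd' := hd
      rw [abs_le] at hd
      refine (hcr (p + u) (by linarith [hd.1]) (by rw [hpre]; linarith) (by rw [hpre]; linarith)).trans ?_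
      have : Real.exp (A * Real.log (p + u).im) ≤ Real.exp (2 * A * Real.log t) := by
        apply Real.exp_le_exp.2
        have := (hlog2 _ hd').2
        nlinarith
      gcongr
  · intro u h1 h2 h3
    obtain ⟨q1, q2, q3⟩ := hpt u (by linarith) h2 h3
    have hd : |(p + u).im - t| ≤ 10 := by rw [hpim]; simpa using h3
    have hd' := hd
    rw [abs_le] at hd
    obtain ⟨-, -, b3, b4⟩ := hb (p + u).im (by linarith [hd.1]) (p + u) (by rw [hpre]; linarith)
      (by rw [hpre]; linarith) rfl
    obtain ⟨l1, l2⟩ := hlog2 _ hd'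
    have hm : ε2 * Real.log (p + u).im ≤ ε1 * Real.log t := by
      calc ε2 * Real.log (p + u).im ≤ (ε1 / 2) * (2 * Real.log t) :=
            mul_le_mul hε22 l2 l1 (by linarith)
        _ = _ := by ring
    rw [hg]
    simp only [norm_div]
    constructor
    · rw [le_div_iff₀ (norm_pos_iff.2 q2)]
      refine le_trans ?_ b3
      have : Real.exp (-(ε1 * Real.log t)) ≤ Real.exp (-(ε2 * Real.log (p + u).im)) := by
        apply Real.exp_le_exp.2
        linarith
      gcongr
    · rw [div_le_iff₀ (norm_pos_iff.2 q2)]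
      refine b4.trans ?_
      have : Real.exp (ε2 * Real.log (p + u).im) ≤ Real.exp (ε1 * Real.log t) := by
        apply Real.exp_le_exp.2
        linarith
      gcongr

end Pool.Agent.W186.DX
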